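import Pool.Agent.H835R2.Knot.Defs

/-!
# String links, their finite type invariants, Milnor invariants and groups

Diagrams are cut by horizontal lines into elementary pieces (`Piece`: maxima, minima and the two
kinds of crossings) and are read from top to bottom, as in `Pool.Agent.H835R2.Knot.Defs`, where also
the local moves `Move` (planar isotopy and the three Reidemeister moves) are listed.  A `k`-strand
string link has `k` endpoints at the top and `k` endpoints at the bottom of the diagram; its `i`-th
strand runs from the `i`-th top endpoint to the `i`-th bottom endpoint.
-/

set_option autoImplicit false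

namespace Pool.Agent.H838R2.SL

open Pool.Agent.H835R2.Knot (Piece Word Front Fits run comps Move crossingSet switchAt up dn sw)

/-! ### Diagrams of string links -/

/-- The `k` strands at the top of the diagram of a `k`-strand string link: all of them are directed
downwards. -/
def start (k : ℕ) : Front := ⟨k, fun _ => true, fun p => p⟩

/-- Let `F` be the strands above a piece, and let `T j` be the strand at which one leaves the part of
the diagram above the piece, if one starts at the `j`-th top endpoint and follows the diagram. Then
`exitP p F T j` is the strand at which one leaves the part of the diagram above the line below the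
piece `p`. -/
def exitP : Piece → Front → (ℕ → ℕ) → ℕ → ℕ
  | .birth i _, _, T => fun j => up i (T j)
  | .death i, F, T => fun j => if T j = F.out i then dn i (F.fin (F.inn i)) else dn i (T j)
  | .pos i, _, T => fun j => sw i (T j)
  | .neg i, _, T => fun j => sw i (T j)

/-- The same for a word instead of a piece. -/
def exits : Word → Front → (ℕ → ℕ) → ℕ → ℕ
  | [], _, T => T
  | p :: w, F, T => exits w (p.act F) (exitP p F T)

/-- Diagrams of `k`-strand string links: the pieces fit together, there are no closed components,
there are `k` endpoints at the bottom, and the strand which starts at the `j`-th top endpoint ends at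
the `j`-th bottom endpoint. -/
structure IsStringLink (k : ℕ) (D : Word) : Prop where
  fits : Fits D (start k)
  no_closed : comps D (start k) = 0
  bottom : (run D (start k)).n = k
  ends : ∀ j < k, exits D (start k) (fun j => j) j = j

/-- Two diagrams of `k`-strand string links differ by one move. -/
inductive Step (k : ℕ) : Word → Word → Prop
  | mk (x l r y : Word) : Move l r → IsStringLink k (x ++ l ++ y) → IsStringLink k (x ++ r ++ y) →
      Step k (x ++ l ++ y) (x ++ r ++ y)

/-- `k`-strand string links: diagrams up to the moves, that is, up to isotopy relative to the
boundary. -/
def StringLink (k : ℕ) : Type := Quot fun D E : {D : Word // IsStringLink k D} => Step k D.1 E.1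

/-- The string link with the diagram `D`. -/
def mk {k : ℕ} (D : Word) (h : IsStringLink k D) : StringLink k := Quot.mk _ ⟨D, h⟩

/-! ### Finite type invariants -/

open Classical in
/-- The value of the invariant `v` at the string link with the diagram `D` (and zero, if `D` is not a
diagram of a string link). -/
noncomputable def ev {k : ℕ} (v : StringLink k → ℚ) (D : Word) : ℚ :=
  if h : IsStringLink k D then v (mk D h) else 0

theorem ev_mk {k : ℕ} (v : StringLink k → ℚ) {D : Word} (h : IsStringLink k D) : ev v D = v (mk D h) := by
  rw [ev, dif_pos h]

theorem ev_add {k : ℕ} (v w : StringLink k → ℚ) (D : Word) : ev (v + w) D = ev v D + ev w D := by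
  simp only [ev]; split_ifs <;> simp

theorem ev_smul {k : ℕ} (c : ℚ) (v : StringLink k → ℚ) (D : Word) : ev (c • v) D = c * ev v D := by
  simp only [ev]; split_ifs <;> simp

/-- `V k n`: the space of the rational valued invariants of `k`-strand string links which are of
finite type of order `≤ n`: for every diagram and any `n + 1` of its crossings, the alternating sum
of the values of `v` on the `2 ^ (n + 1)` diagrams which arise by switching some of these crossings
is zero. (Up to a sign, this sum is the value of the Vassiliev extension of `v` on the singular
string link which has double points in place of these crossings, and every singular string link with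
`n + 1` double points arises in this way. Switching crossings of a diagram of a string link gives a
diagram of a string link, see the theorem `switch` in the file `T2.lean`.) -/
noncomputable def V (k n : ℕ) : Submodule ℚ (StringLink k → ℚ) where
  carrier := {v | ∀ D, IsStringLink k D → ∀ S ⊆ crossingSet D, S.card = n + 1 →
    ∑ T ∈ S.powerset, (-1 : ℚ) ^ T.card * ev v (switchAt T D) = 0}
  add_mem' := by
    intro v w hv hw D h S hS hc
    simp only [ev_add, mul_add, Finset.sum_add_distrib, hv D h S hS hc, hw D h S hS hc, add_zero]
  zero_mem' := by
    intro D h S hS hc
    simp [ev]
  smul_mem' := by
    intro c v hv D h S hS hc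
    have := hv D h S hS hc
    simp only [ev_smul, mul_left_comm _ c, ← Finset.mul_sum, this, mul_zero]

/-! ### The group of a string link

Every strand at a horizontal line has a label, the class of the loop which comes from the eye of the
reader, passes below this strand from the left to the right, and returns. -/

/-- Words in the labels `Sum.inl j` of the strands at the top and the labels `Sum.inr c` of the left
strands below the maxima; the maxima are numbered from top to bottom. -/
abbrev Lab : Type := FreeGroup (ℕ ⊕ ℕ)

/-- The label of the `j`-th strand at the top. -/
def top (j : ℕ) : Lab := FreeGroup.of (Sum.inl j)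

/-- The label of the left strand below the maximum with number `c`. -/
def left (c : ℕ) : Lab := FreeGroup.of (Sum.inr c)

/-- The labels of the strands below a piece, if `m` are the labels of the strands above it, and `c`
is the number of maxima above it. The two strands below a maximum have inverse labels, the label of
the strand passing over in a crossing does not change, and neither does the product of the labels of
the two strands of a crossing. -/
def lab : Piece → ℕ → (ℕ → Lab) → ℕ → Lab
  | .birth i _, c, m => fun p => if p < i then m p else if p = i then left c
      else if p = i + 1 then (left c)⁻¹ else m (p - 2)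
  | .death i, _, m => fun p => m (up i p)
  | .pos i, _, m => fun p => if p = i then m (i + 1)
      else if p = i + 1 then (m (i + 1))⁻¹ * m i * m (i + 1) else m p
  | .neg i, _, m => fun p => if p = i then m i * m (i + 1) * (m i)⁻¹
      else if p = i + 1 then m i else m p

/-- The relation given by a piece: the labels of the two strands above a minimum are inverse to each
other. -/
def rel : Piece → (ℕ → Lab) → Set Lab
  | .death i, m => {m i * m (i + 1)}
  | _, _ => ∅

/-- The number of maxima in a piece (one or zero). -/
def maxP : Piece → ℕ
  | .birth _ _ => 1
  | _ => 0

/-- The number of maxima of a diagram. -/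
def maxs (D : Word) : ℕ := (D.map maxP).sum

/-- The relations given by the minima of a diagram, if `m` are the labels of the strands above it, and
`c` is the number of maxima above it. -/
def rels : Word → ℕ → (ℕ → Lab) → Set Lab
  | [], _, _ => ∅
  | p :: w, c, m => rel p m ∪ rels w (c + maxP p) (lab p c m)

/-- The group of the string link with the diagram `D`, that is, the fundamental group of its
complement: the generators are `top 0, ..., top (k - 1)` and `left 0, ..., left (maxs D - 1)`, the
relations are given by the minima. (All other letters are killed.) -/
abbrev Gp (k : ℕ) (D : Word) : Type :=
  PresentedGroup (rels D 0 top ∪ {g | ∃ j, k ≤ j ∧ g = top j} ∪ {g | ∃ c, maxs D ≤ c ∧ g = left c})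

/-- The element of the group of the string link given by a word in the labels. -/
def el (k : ℕ) (D : Word) (g : Lab) : Gp k D := PresentedGroup.mk _ g

/-! ### Longitudes

If one follows the diagram below a crossing, one collects a factor, the label of the strand passing
over or its inverse. -/

/-- The factors collected along the diagram: `up p` is, for every strand `p` at a horizontal line
which is directed upwards, the product of the factors on the way from this strand (through the part
of the diagram above the line) to the strand `fin p`, and `top j` is the product of the factors on the
way from the `j`-th top endpoint to the strand at which one leaves the part of the diagram above the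
line. -/
structure Par : Type where
  up : ℕ → Lab
  top : ℕ → Lab

/-- The factors below a piece, if `Q` are those above it; `F` are the strands, `m` their labels and
`T` their exits above the piece.  (In `pos i` the strand `i` above the crossing passes under the
strand with label `m (i + 1)`, in `neg i` the strand `i + 1` above the crossing passes under the
strand with label `m i`.) -/
def parP : Piece → Front → (ℕ → Lab) → (ℕ → ℕ) → Par → Par
  | .birth i _, _, _, _, Q =>
    { up := fun p => if p < i then Q.up p else if p = i ∨ p = i + 1 then 1 else Q.up (p - 2)
      top := Q.top }
  | .death i, F, _, T, Q =>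
    { up := fun p => if F.fin (up i p) = F.out i ∧ F.dir (up i p) = false
        then Q.up (up i p) * Q.up (F.inn i) else Q.up (up i p)
      top := fun j => if T j = F.out i then Q.top j * Q.up (F.inn i) else Q.top j }
  | .pos i, F, m, T, Q =>
    { up := fun p =>
        if p = i + 1 then (if F.dir i then Q.up i else (m (i + 1))⁻¹ * Q.up i)
        else if F.dir (sw i p) = false ∧ F.fin (sw i p) = i ∧ F.dir i = true
          then Q.up (sw i p) * m (i + 1) else Q.up (sw i p)
      top := fun j => if T j = i then Q.top j * m (i + 1) else Q.top j }
  | .neg i, F, m, T, Q =>
    { up := fun p =>
        if p = i then (if F.dir (i + 1) then Q.up (i + 1) else m i * Q.up (i + 1))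
        else if F.dir (sw i p) = false ∧ F.fin (sw i p) = i + 1 ∧ F.dir (i + 1) = true
          then Q.up (sw i p) * (m i)⁻¹ else Q.up (sw i p)
      top := fun j => if T j = i + 1 then Q.top j * (m i)⁻¹ else Q.top j }

/-- The same for a word instead of a piece; `c` is the number of maxima above it. -/
def par : Word → ℕ → Front → (ℕ → Lab) → (ℕ → ℕ) → Par → Par
  | [], _, _, _, _, Q => Q
  | p :: w, c, F, m, T, Q =>
    par w (c + maxP p) (p.act F) (lab p c m) (exitP p F T) (parP p F m T Q)

/-- The product of the factors on the way along the `j`-th strand of a string link: the longitude
which is parallel to the strand in the plane. -/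
def planar (k : ℕ) (D : Word) (j : ℕ) : Lab :=
  (par D 0 (start k) top (fun j => j) ⟨fun _ => 1, fun _ => 1⟩).top j

/-- `l` is the `j`-th longitude of the string link with the diagram `D`: it is the planar longitude,
corrected by a power of the meridian `top j` in such a way that the linking number with the `j`-th
strand is zero. -/
def IsLongitude (k : ℕ) (D : Word) (j : ℕ) (l : Gp k D) : Prop :=
  (∃ a : ℤ, l = el k D (top j ^ a * planar k D j)) ∧
    ∀ f : Gp k D →* Multiplicative ℤ,
      (∀ i < k, f (el k D (top i)) = if i = j then Multiplicative.ofAdd 1 else 1) → f l = 1

/-! ### Milnor invariants -/

/-- The coefficient of the monomial `X_I = X_{i₁} ⋯ X_{iᵣ}`, `I = [i₁, ..., iᵣ]`, in the Magnus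
expansion of a letter: the letter `x_i` is `1 + X_i` and the letter `x_i⁻¹` is
`1 - X_i + X_i² - ...`. -/
def magnusLetter {k : ℕ} (x : Fin k × Bool) (I : List (Fin k)) : ℤ :=
  if x.2 then (if I = [] ∨ I = [x.1] then 1 else 0)
  else (if ∀ i ∈ I, i = x.1 then (-1) ^ I.length else 0)

/-- The coefficient of the monomial `X_I` in the Magnus expansion of a word. -/
def magnusWord {k : ℕ} : List (Fin k × Bool) → List (Fin k) → ℤ
  | [], I => if I = [] then 1 else 0
  | x :: w, I => ∑ m ∈ Finset.range (I.length + 1),
      magnusLetter x (I.take m) * magnusWord w (I.drop m)

/-- The coefficient of the monomial `X_I` in the Magnus expansion of an element of a free group. -/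
def magnus {k : ℕ} (I : List (Fin k)) (w : FreeGroup (Fin k)) : ℤ := magnusWord w.toWord I

/-- The homomorphism from the free group to the group of a string link which sends the generators to
the meridians `top i`. -/
def meridians (k : ℕ) (D : Word) : FreeGroup (Fin k) →* Gp k D :=
  FreeGroup.lift fun i => el k D (top i)

/-- `μ` is a Milnor invariant: there are `I = [i₁, ..., iᵣ]` and `j` such that for every string link,
`μ` is the coefficient of `X_I` in the Magnus expansion of any word `w` in the meridians which
represents the `j`-th longitude modulo the term with number `r + 1` of the lower central series of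
the group (this is `lowerCentralSeries r` in Mathlib, where the group itself is the term with number
zero). -/
def IsMilnor (k : ℕ) (μ : StringLink k → ℚ) : Prop :=
  ∃ (I : List (Fin k)) (j : Fin k), ∀ (D : Word) (h : IsStringLink k D) (l : Gp k D),
    IsLongitude k D j l → ∀ w : FreeGroup (Fin k),
      (meridians k D w)⁻¹ * l ∈ (⊤ : Subgroup (Gp k D)).lowerCentralSeries I.length →
      μ (mk D h) = magnus I w

/-! ### The subspaces `M` and `N` -/

/-- `M k n`: the invariants of order `≤ n` which are polynomials in Milnor invariants with rational
coefficients, that is, linear combinations of products of Milnor invariants (the empty product `1`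
is allowed). -/
noncomputable def M (k n : ℕ) : Submodule ℚ (StringLink k → ℚ) :=
  V k n ⊓ Subalgebra.toSubmodule (Algebra.adjoin ℚ {μ : StringLink k → ℚ | IsMilnor k μ})

/-- `N k n`: the invariants of order `≤ n` which vanish at every string link whose group is free. -/
noncomputable def N (k n : ℕ) : Submodule ℚ (StringLink k → ℚ) where
  carrier := {v | v ∈ V k n ∧ ∀ (D : Word) (h : IsStringLink k D), IsFreeGroup (Gp k D) →
    v (mk D h) = 0}
  add_mem' := by
    rintro v w ⟨hv, hv'⟩ ⟨hw, hw'⟩
    refine ⟨add_mem hv hw, fun D h hf => ?_⟩
    simp [hv' D h hf, hw' D h hf]
  zero_mem' := ⟨zero_mem _, fun _ _ _ => rfl⟩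
  smul_mem' := by
    rintro c v ⟨hv, hv'⟩
    refine ⟨Submodule.smul_mem _ c hv, fun D h hf => ?_⟩
    simp [hv' D h hf]

end Pool.Agent.H838R2.SL
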