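import Pool.Agent.H838R2.SL.Defs
import Pool.Agent.H838R2.Jones.Ev

/-!
# The words of the proof, and exact statements of its parts
-/

set_option autoImplicit false

namespace Pool.Agent.H838R2.SL

open Pool.Agent.H835R2.Knot (Piece Word Front Fits run comps Move crossingSet switchAt up dn sw)
open Pool.Agent.H835R2.Knot.Piece
open Pool.Agent.H838R2.Jones (F opW)

/-- the first strand is a trefoil, one of whose arcs is hooked by the second strand -/
def L : Word := [birth 1 false, neg 2, neg 1, neg 1, pos 2, neg 0, pos 1, pos 1, death 0]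

/-- the same, with one crossing of the trefoil switched -/
def L' : Word := [birth 1 false, neg 2, neg 1, neg 1, pos 2, pos 0, pos 1, pos 1, death 0]

/-- the first strand is a trefoil -/
def J₀ : Word := [birth 1 false, neg 0, pos 1, pos 1, death 0]

/-- the same, with one crossing switched -/
def J₁ : Word := [birth 1 false, pos 0, pos 1, pos 1, death 0]

/-- (T1) trivial strands can be added on the right -/
def StmtWiden : Prop := ∀ (m k : ℕ) (D : Word), IsStringLink m D → m ≤ k → IsStringLink k D

/-- (T2) switching crossings -/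
def StmtSwitch : Prop := ∀ (k : ℕ) (D : Word) (T : Finset ℕ), IsStringLink k D →
  IsStringLink k (switchAt T D)

/-- (T3) the groups of `L` and `L'` are free -/
def StmtFree : Prop := ∀ k, 2 ≤ k → IsFreeGroup (Gp k L) ∧ IsFreeGroup (Gp k L')

/-- (T4) all longitudes of `J₀` and `J₁` are trivial modulo the lower central series -/
def StmtLong : Prop := ∀ k, 2 ≤ k → ∀ (D : Word), D = J₀ ∨ D = J₁ → ∀ j < k, 
  (∃ l, IsLongitude k D j l) ∧ ∀ l, IsLongitude k D j l →
    ∀ n, l ∈ (⊤ : Subgroup (Gp k D)).lowerCentralSeries n

/-- (T5) the relation between the values of an invariant of order `≤ 2` -/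
def StmtRel : Prop := ∀ k, 2 ≤ k → ∀ v ∈ V k 2, ev v L - ev v L' = ev v J₀ - ev v J₁

/-- (T6) the invariant -/
def StmtInv : Prop := ∀ k, 2 ≤ k → ∃ v ∈ V k 2, ev v J₀ ≠ ev v J₁

end Pool.Agent.H838R2.SL
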