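import Pool.Agent.H838R2.SL.Stubs

/-!
# Trivial strands can be added on the right
-/

set_option autoImplicit false

namespace Pool.Agent.H838R2.SL

open Pool.Agent.H835R2.Knot (Piece Word Front Fits run comps Move crossingSet switchAt up dn sw)
open Pool.Agent.H835R2.Knot.Piece

namespace Widen

theorem act_dir (p : Piece) (F G : Front) (hd : G.dir = F.dir) : (p.act G).dir = (p.act F).dir := by
  obtain ⟨n, d, f⟩ := F
  obtain ⟨n', d', f'⟩ := G
  obtain rfl : d' = d := hd
  cases p <;> rfl

theorem act_fin (p : Piece) (F G : Front) (hd : G.dir = F.dir) (hf : G.fin = F.fin) :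
    (p.act G).fin = (p.act F).fin := by
  obtain ⟨n, d, f⟩ := F
  obtain ⟨n', d', f'⟩ := G
  obtain rfl : d' = d := hd
  obtain rfl : f' = f := hf
  cases p <;> rfl

theorem closes_eq (p : Piece) (F G : Front) (hd : G.dir = F.dir) (hf : G.fin = F.fin) :
    p.closes G = p.closes F := by
  obtain ⟨n, d, f⟩ := F
  obtain ⟨n', d', f'⟩ := G
  obtain rfl : d' = d := hd
  obtain rfl : f' = f := hf
  cases p <;> rfl

theorem exitP_eq (p : Piece) (F G : Front) (hd : G.dir = F.dir) (hf : G.fin = F.fin) (T : ℕ → ℕ) :
    exitP p G T = exitP p F T := by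
  obtain ⟨n, d, f⟩ := F
  obtain ⟨n', d', f'⟩ := G
  obtain rfl : d' = d := hd
  obtain rfl : f' = f := hf
  cases p <;> rfl

theorem comps_eq : ∀ (D : Word) (F G : Front), G.dir = F.dir → G.fin = F.fin →
    comps D G = comps D F
  | [], _, _, _, _ => rfl
  | p :: w, F, G, hd, hf => by
    simp only [comps, closes_eq p F G hd hf]
    rw [comps_eq w (p.act F) (p.act G) (act_dir p F G hd) (act_fin p F G hd hf)]

theorem exits_eq : ∀ (D : Word) (F G : Front) (T : ℕ → ℕ), G.dir = F.dir → G.fin = F.fin →
    exits D G T = exits D F T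
  | [], _, _, _, _, _ => rfl
  | p :: w, F, G, T, hd, hf => by
    simp only [exits, exitP_eq p F G hd hf]
    rw [exits_eq w (p.act F) (p.act G) _ (act_dir p F G hd) (act_fin p F G hd hf)]

theorem fits_of : ∀ (D : Word) (F G : Front) (c : ℕ), G.dir = F.dir → G.fin = F.fin →
    G.n = F.n + c → Fits D F → Fits D G ∧ (run D G).n = (run D F).n + c
  | [], _, _, _, _, _, hn, _ => ⟨trivial, hn⟩
  | p :: w, F, G, c, hd, hf, hn, h => by
    obtain ⟨h1, h2⟩ := h
    have hn' : (p.act G).n = (p.act F).n + c := by
      cases p <;> simp only [Piece.act, Piece.Fits] at h1 ⊢ <;> omega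
    have ih := fits_of w (p.act F) (p.act G) c (act_dir p F G hd) (act_fin p F G hd hf) hn' h2
    refine ⟨⟨?_, ih.1⟩, ih.2⟩
    cases p <;> simp only [Piece.Fits, hd] at h1 ⊢
    · omega
    · exact ⟨by omega, h1.2⟩
    · omega
    · omega

theorem out_le (F : Front) (i : ℕ) : F.out i ≤ i + 1 := by
  unfold Front.out
  split_ifs <;> omega

theorem act_inv (p : Piece) (F : Front) (h : p.Fits F) (hF : ∀ q, F.n ≤ q → F.fin q = q) :
    ∀ q, (p.act F).n ≤ q → (p.act F).fin q = q := by
  intro q hq
  cases p with
  | birth i b =>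
    simp only [Piece.Fits, Piece.act] at h hq ⊢
    rw [if_neg (by omega), if_neg (by omega), hF (q - 2) (by omega)]
    unfold up
    rw [if_neg (by omega)]
    omega
  | death i =>
    simp only [Piece.Fits, Piece.act] at h hq ⊢
    have hup : up i q = q + 2 := by
      unfold up
      rw [if_neg (by omega)]
    rw [hup, hF (q + 2) (by omega)]
    have := out_le F i
    rw [if_neg (by omega)]
    unfold dn
    rw [if_neg (by omega)]
    omega
  | pos i =>
    simp only [Piece.Fits, Piece.act] at h hq ⊢
    have hsw : sw i q = q := by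
      unfold sw
      rw [if_neg (by omega), if_neg (by omega)]
    rw [hsw, hF q hq, hsw]
  | neg i =>
    simp only [Piece.Fits, Piece.act] at h hq ⊢
    have hsw : sw i q = q := by
      unfold sw
      rw [if_neg (by omega), if_neg (by omega)]
    rw [hsw, hF q hq, hsw]

theorem exitP_inv (p : Piece) (F : Front) (T : ℕ → ℕ) (h : p.Fits F) (j c : ℕ)
    (hT : T j = c + F.n) : exitP p F T j = c + (p.act F).n := by
  cases p with
  | birth i b =>
    simp only [Piece.Fits, Piece.act, exitP] at h ⊢
    unfold up
    rw [hT, if_neg (by omega)]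
    omega
  | death i =>
    simp only [Piece.Fits, Piece.act, exitP] at h ⊢
    have := out_le F i
    rw [hT, if_neg (by omega)]
    unfold dn
    rw [if_neg (by omega)]
    omega
  | pos i =>
    simp only [Piece.Fits, Piece.act, exitP] at h ⊢
    unfold sw
    rw [hT, if_neg (by omega), if_neg (by omega)]
  | neg i =>
    simp only [Piece.Fits, Piece.act, exitP] at h ⊢
    unfold sw
    rw [hT, if_neg (by omega), if_neg (by omega)]

theorem exits_inv (j c : ℕ) : ∀ (D : Word) (F : Front) (T : ℕ → ℕ), Fits D F →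
    T j = c + F.n → exits D F T j = c + (run D F).n
  | [], _, _, _, hT => hT
  | p :: w, F, T, h, hT => by
    obtain ⟨h1, h2⟩ := h
    exact exits_inv j c w (p.act F) (exitP p F T) h2 (exitP_inv p F T h1 j c hT)

end Widen

theorem widen : StmtWiden := by
  intro m k D h hmk
  obtain ⟨c, rfl⟩ := Nat.exists_eq_add_of_le hmk
  have hf := Widen.fits_of D (start m) (start (m + c)) c rfl rfl rfl h.fits
  refine ⟨hf.1, ?_, ?_, ?_⟩
  · rw [Widen.comps_eq D (start m) (start (m + c)) rfl rfl]
    exact h.no_closed
  · rw [hf.2, h.bottom]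
  · intro j hj
    rw [Widen.exits_eq D (start m) (start (m + c)) _ rfl rfl]
    by_cases hjm : j < m
    · exact h.ends j hjm
    · have := Widen.exits_inv j (j - m) D (start m) (fun j => j) h.fits
        (show j = j - m + m by omega)
      rw [this, h.bottom]
      omega

end Pool.Agent.H838R2.SL
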