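import Pool.Agent.H838R2.SL.Stubs

/-!
# Switching crossings of a diagram of a string link
-/

set_option autoImplicit false

namespace Pool.Agent.H838R2.SL

open Pool.Agent.H835R2.Knot (Piece Word Front Fits run comps Move crossingSet switchAt up dn sw)
open Pool.Agent.H835R2.Knot.Piece

namespace Switch

theorem act_eq (p : Piece) (F : Front) : p.switch.act F = p.act F := by
  cases p <;> rfl

theorem fits_iff (p : Piece) (F : Front) : p.switch.Fits F ↔ p.Fits F := by
  cases p <;> rfl

theorem closes_eq (p : Piece) (F : Front) : p.switch.closes F = p.closes F := by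
  cases p <;> rfl

theorem exitP_eq (p : Piece) (F : Front) (T : ℕ → ℕ) : exitP p.switch F T = exitP p F T := by
  cases p <;> rfl

theorem all_eq : ∀ (D : Word) (g : ℕ → Piece → Piece), (∀ k p, g k p = p ∨ g k p = p.switch) →
    ∀ (F : Front) (T : ℕ → ℕ), (Fits (D.mapIdx g) F ↔ Fits D F) ∧
      comps (D.mapIdx g) F = comps D F ∧ run (D.mapIdx g) F = run D F ∧
      exits (D.mapIdx g) F T = exits D F T
  | [], _, _, _, _ => by simp
  | p :: w, g, hg, F, T => by
    rw [List.mapIdx_cons]
    have ih := all_eq w (fun i => g (i + 1)) (fun k q => hg (k + 1) q) (p.act F) (exitP p F T)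
    have h1 : (g 0 p).act F = p.act F := by
      rcases hg 0 p with h | h <;> rw [h]
      exact act_eq p F
    have h2 : (g 0 p).Fits F ↔ p.Fits F := by
      rcases hg 0 p with h | h <;> rw [h]
      exact fits_iff p F
    have h3 : (g 0 p).closes F = p.closes F := by
      rcases hg 0 p with h | h <;> rw [h]
      exact closes_eq p F
    have h4 : exitP (g 0 p) F T = exitP p F T := by
      rcases hg 0 p with h | h <;> rw [h]
      exact exitP_eq p F T
    simp only [Pool.Agent.H835R2.Knot.Fits, comps, run, exits, h1, h2, h3, h4]
    exact ⟨and_congr_right fun _ => ih.1, by rw [ih.2.1], ih.2.2.1, ih.2.2.2⟩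

end Switch

theorem switch : StmtSwitch := by
  intro k D T h
  have key := Switch.all_eq D (fun k p => if k ∈ T then p.switch else p) (by
    intro k p
    by_cases hk : k ∈ T
    · right; simp only [hk, if_true]
    · left; simp only [hk, if_false]) (start k) (fun j => j)
  refine ⟨key.1.mpr h.fits, ?_, ?_, ?_⟩
  · exact key.2.1.trans h.no_closed
  · have := congrArg Front.n key.2.2.1
    exact this.trans h.bottom
  · intro j hj
    have := congrFun key.2.2.2 j
    exact this.trans (h.ends j hj)

end Pool.Agent.H838R2.SL
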