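import Pool.Agent.H838R2.SL.T6Inv

/-!
# An invariant of order two which distinguishes `J₀` and `J₁`

It is the coefficient of `X²` in the Jones polynomial of (the closure of) a string link at
`t = (1 + X)²`.
-/

set_option autoImplicit false

namespace Pool.Agent.H838R2.SL

open Pool.Agent.H835R2.Knot (Piece Word Front Fits run comps Move crossingSet switchAt up dn sw)
open Pool.Agent.H838R2.Jones
open Pool.Agent.Helper454.Wh (insD delD swpD noD OPiece OWord)
open PowerSeries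

theorem fits_append {u w : Word} {A : Front} : Fits (u ++ w) A ↔ Fits u A ∧ Fits w (run u A) := by
  induction u generalizing A with
  | nil => simp [Fits, run]
  | cons p u ih =>
    show p.Fits A ∧ Fits (u ++ w) (p.act A) ↔ (p.Fits A ∧ Fits u (p.act A)) ∧ Fits w (run u (p.act A))
    rw [ih, and_assoc]

noncomputable section

/-- the square root of `t` -/
def sx : ℚ⟦X⟧ := 1 + X
/-- its inverse -/
def sx' : ℚ⟦X⟧ := (1 + X)⁻¹

theorem hsx : sx * sx' = 1 := by
  apply PowerSeries.mul_inv_cancel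
  simp [sx]

/-- the value of the state model -/
def valD (D : Word) : ℚ⟦X⟧ := opD sx sx' D (fun _ => true) 1 (fun _ => false)

theorem valD_move {k : ℕ} {x l r y : Word} (h : Move l r) (hl : IsStringLink k (x ++ l ++ y)) :
    valD (x ++ l ++ y) = valD (x ++ r ++ y) := by
  have h1 := hl.fits
  rw [List.append_assoc, fits_append, fits_append] at h1
  obtain ⟨-, h2, -⟩ := h1
  have h3 := move_op hsx h (run x (start k)) h2
  have e : ∀ w : Word, valD (x ++ w ++ y) = opD sx sx' x (start k).dir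
      (opD sx sx' w (run x (start k)).dir (opD sx sx' y (run w (run x (start k))).dir 1))
        (fun _ => false) := by
    intro w
    show opD sx sx' (x ++ w ++ y) (start k).dir 1 (fun _ => false) = _
    rw [List.append_assoc, opD_append, opD_append]
  rw [e, e, dir_run l, h3 _ |>.2, ← dir_run r, (h3 _).1]
  exact 1

/-- the invariant -/
def jones (k : ℕ) : StringLink k → ℚ :=
  Quot.lift (fun D => coeff 2 (valD D.1)) (by
    rintro ⟨D, hD⟩ ⟨E, hE⟩ h
    simp only at h ⊢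
    cases h with
    | mk x l r y hm h1 h2 => rw [valD_move hm h1])

theorem jones_mk {k : ℕ} {D : Word} (h : IsStringLink k D) : jones k (mk D h) = coeff 2 (valD D) :=
  rfl

/-! ### the order -/

/-- all values are divisible by `X ^ n` -/
def Dv (n : ℕ) (f : Jones.F ℚ⟦X⟧) : Prop := ∀ σ, (X : ℚ⟦X⟧) ^ n ∣ f σ

theorem Dv_B (n i : ℕ) {f : Jones.F ℚ⟦X⟧} (h : Dv n f) : Dv n (Bl sx' i f) := fun _ =>
  dvd_add (Dvd.dvd.mul_left (h _) _) (h _)

theorem Dv_D (n i : ℕ) {f : Jones.F ℚ⟦X⟧} (h : Dv n f) : Dv n (Dl sx i f) := by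
  intro σ
  rw [Dl_apply]
  split_ifs
  · exact Dvd.dvd.mul_left (h _) _
  · exact Dvd.dvd.mul_left (h _) _
  · exact dvd_zero _

theorem Dv_X (n i : ℕ) (c : ℚ⟦X⟧ × ℚ⟦X⟧) {f : Jones.F ℚ⟦X⟧} (h : Dv n f) :
    Dv n (Xl sx sx' c i f) := by
  intro σ
  rw [Xl_apply]
  exact dvd_add (Dvd.dvd.mul_left (h _) _) (Dvd.dvd.mul_left (Dv_D n i (Dv_B n i h) _) _)

theorem Dv_P (n : ℕ) (p : OPiece) (d : ℕ → Bool) {f : Jones.F ℚ⟦X⟧} (h : Dv n f) :
    Dv n (opP sx sx' p d f) := by
  cases p with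
  | birth i b => exact Dv_B n i h
  | death i => exact Dv_D n i h
  | pos i => exact Dv_X n i _ h
  | neg i => exact Dv_X n i _ h

theorem X_dvd_of {a : ℚ⟦X⟧} (h : constantCoeff a = 0) : (X : ℚ⟦X⟧) ∣ a := X_dvd_iff.2 h

theorem cc_sx : constantCoeff sx = 1 := by simp [sx]
theorem cc_sx' : constantCoeff sx' = 1 := by simp [sx']

theorem dvd_c (b : Bool) : (X : ℚ⟦X⟧) ∣ (cP sx sx' b).1 - (cN sx sx' b).1 ∧
    (X : ℚ⟦X⟧) ∣ (cP sx sx' b).2 - (cN sx sx' b).2 := by
  constructor <;> apply X_dvd_of <;> cases b <;>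
    simp [cP, cN, cc_sx, cc_sx']

theorem Dv_diff (n : ℕ) (p : Piece) (d : ℕ → Bool) {f : Jones.F ℚ⟦X⟧} (h : Dv n f) :
    Dv (n + 1) (opP sx sx' (toO p) d f - opP sx sx' (toO p.switch) d f) := by
  have key : ∀ (b : Bool) (i : ℕ) (σ : ℕ → Bool), (X : ℚ⟦X⟧) ^ (n + 1) ∣
      Xl sx sx' (cP sx sx' b) i f σ - Xl sx sx' (cN sx sx' b) i f σ := by
    intro b i σ
    have e : Xl sx sx' (cP sx sx' b) i f σ - Xl sx sx' (cN sx sx' b) i f σ =
        ((cP sx sx' b).1 - (cN sx sx' b).1) * f σ +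
        ((cP sx sx' b).2 - (cN sx sx' b).2) * Dl sx i (Bl sx' i f) σ := by
      rw [Xl_apply, Xl_apply]
      simp only [Pi.add_apply, Pi.smul_apply, smul_eq_mul]
      ring
    rw [e, pow_succ']
    exact dvd_add (mul_dvd_mul (dvd_c b).1 (h _)) (mul_dvd_mul (dvd_c b).2 (Dv_D n i (Dv_B n i h) _))
  intro σ
  cases p with
  | birth i b => simp [Piece.switch]
  | death i => simp [Piece.switch]
  | pos i => exact key _ i σ
  | neg i =>
    have := key (d i == d (i + 1)) i σ
    rw [← neg_sub]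
    exact (dvd_neg).2 this

theorem nxt_switch (p : Piece) (d : ℕ → Bool) : nxt (toO p.switch) d = nxt (toO p) d := by
  cases p <;> rfl

/-- switching, with an offset -/
def sw' (T : Finset ℕ) : ℕ → Word → Word
  | _, [] => []
  | m, p :: w => (if m ∈ T then p.switch else p) :: sw' T (m + 1) w

theorem switchAt_eq (T : Finset ℕ) (D : Word) : switchAt T D = sw' T 0 D := by
  have : ∀ (D : Word) (m : ℕ), D.mapIdx (fun k p => if k + m ∈ T then p.switch else p) =
      sw' T m D := by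
    intro D
    induction D with
    | nil => intro m; rfl
    | cons p w ih =>
      intro m
      rw [List.mapIdx_cons, sw', ← ih (m + 1)]
      simp only [Nat.zero_add, Nat.add_assoc, Nat.add_comm 1 m]
  have h := this D 0
  simpa [switchAt] using h

theorem sw'_insert (T : Finset ℕ) (a : ℕ) (D : Word) (m : ℕ) (h : a < m) :
    sw' (insert a T) m D = sw' T m D := by
  induction D generalizing m with
  | nil => rfl
  | cons p w ih =>
    rw [sw', sw', ih (m + 1) (by omega)]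
    have : m ∈ insert a T ↔ m ∈ T := by
      rw [Finset.mem_insert]; constructor
      · rintro (h1 | h1)
        · omega
        · exact h1
      · exact Or.inr
    simp only [this]

theorem Dv_sum (D : Word) : ∀ (m : ℕ) (S : Finset ℕ) (d : ℕ → Bool) (f : Jones.F ℚ⟦X⟧),
    (∀ x ∈ S, m ≤ x ∧ x < m + D.length) →
    Dv S.card (∑ T ∈ S.powerset, (-1 : ℚ⟦X⟧) ^ T.card • opD sx sx' (sw' T m D) d f) := by
  induction D with
  | nil =>
    intro m S d f h
    have : S = ∅ := Finset.eq_empty_of_forall_notMem fun x hx => by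
      have := h x hx
      simp only [List.length_nil] at this
      omega
    subst this
    intro σ
    simp
  | cons p w ih =>
    intro m S d f h
    by_cases hm : m ∈ S
    · obtain ⟨S₁, hS₁, rfl⟩ : ∃ S₁, m ∉ S₁ ∧ S = insert m S₁ :=
        ⟨S.erase m, Finset.notMem_erase _ _, (Finset.insert_erase hm).symm⟩
      have h1 : ∀ x ∈ S₁, m + 1 ≤ x ∧ x < m + 1 + w.length := by
        intro x hx
        have h2 := h x (Finset.mem_insert_of_mem hx)
        have h3 : x ≠ m := fun e => hS₁ (e ▸ hx)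
        simp only [List.length_cons] at h2
        omega
      have hI := ih (m + 1) S₁ (nxt (toO p) d) f h1
      rw [Finset.card_insert_of_notMem hS₁, Finset.sum_powerset_insert hS₁]
      have e1 : ∀ T ∈ S₁.powerset, (-1 : ℚ⟦X⟧) ^ T.card • opD sx sx' (sw' T m (p :: w)) d f =
          opP sx sx' (toO p) d ((-1 : ℚ⟦X⟧) ^ T.card •
            opD sx sx' (sw' T (m + 1) w) (nxt (toO p) d) f) := by
        intro T hT
        have : m ∉ T := fun hh => hS₁ (Finset.mem_powerset.1 hT hh)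
        rw [sw', if_neg this, map_smul]
        rfl
      have e2 : ∀ T ∈ S₁.powerset, (-1 : ℚ⟦X⟧) ^ (insert m T).card •
          opD sx sx' (sw' (insert m T) m (p :: w)) d f =
          - opP sx sx' (toO p.switch) d ((-1 : ℚ⟦X⟧) ^ T.card •
            opD sx sx' (sw' T (m + 1) w) (nxt (toO p) d) f) := by
        intro T hT
        have : m ∉ T := fun hh => hS₁ (Finset.mem_powerset.1 hT hh)
        rw [sw', if_pos (Finset.mem_insert_self _ _), sw'_insert _ _ _ _ (Nat.lt_succ_self m),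
          Finset.card_insert_of_notMem this, map_smul, pow_succ, mul_neg_one, neg_smul]
        show -((-1 : ℚ⟦X⟧) ^ T.card • opP sx sx' (toO p.switch) d
          (opD sx sx' (sw' T (m + 1) w) (nxt (toO p.switch) d) f)) = _
        rw [nxt_switch]
      rw [Finset.sum_congr rfl e1, Finset.sum_congr rfl e2, Finset.sum_neg_distrib,
        ← map_sum, ← map_sum, ← sub_eq_add_neg]
      exact Dv_diff _ p d hI
    · have h1 : ∀ x ∈ S, m + 1 ≤ x ∧ x < m + 1 + w.length := by
        intro x hx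
        have h2 := h x hx
        have h3 : x ≠ m := fun e => hm (e ▸ hx)
        simp only [List.length_cons] at h2
        omega
      have hI := ih (m + 1) S (nxt (toO p) d) f h1
      have e1 : ∀ T ∈ S.powerset, (-1 : ℚ⟦X⟧) ^ T.card • opD sx sx' (sw' T m (p :: w)) d f =
          opP sx sx' (toO p) d ((-1 : ℚ⟦X⟧) ^ T.card •
            opD sx sx' (sw' T (m + 1) w) (nxt (toO p) d) f) := by
        intro T hT
        have : m ∉ T := fun hh => hm (Finset.mem_powerset.1 hT hh)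
        rw [sw', if_neg this, map_smul]
        rfl
      rw [Finset.sum_congr rfl e1, ← map_sum]
      exact Dv_P _ _ _ hI

/-- the invariant has order at most two (given that switching preserves string links) -/
theorem jones_mem (hsw : StmtSwitch) (k : ℕ) : jones k ∈ V k 2 := by
  intro D hD S hS hc
  have h1 : ∀ x ∈ S, 0 ≤ x ∧ x < 0 + D.length := by
    intro x hx
    have h2 := hS hx
    simp only [crossingSet, Finset.mem_filter, Finset.mem_range] at h2
    exact ⟨Nat.zero_le _, by omega⟩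
  have h3 := Dv_sum D 0 S (fun _ => true) 1 h1 (fun _ => false)
  rw [hc] at h3
  have h4 : coeff 2 ((∑ T ∈ S.powerset, (-1 : ℚ⟦X⟧) ^ T.card •
      opD sx sx' (sw' T 0 D) (fun _ => true) 1) (fun _ => false)) = 0 :=
    (X_pow_dvd_iff.1 h3) 2 (by norm_num)
  rw [Finset.sum_apply, map_sum] at h4
  rw [← h4]
  refine Finset.sum_congr rfl fun T _ => ?_
  rw [ev_mk _ (hsw k D T hD), jones_mk, switchAt_eq, Pi.smul_apply, smul_eq_mul]
  have : ((-1 : ℚ⟦X⟧) ^ T.card) = C ((-1 : ℚ) ^ T.card) := by simp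
  rw [this, coeff_C_mul]
  rfl

/-! ### the values -/

theorem z1 {s s' : ℚ⟦X⟧} (hs : s * s' = 1) (f : Jones.F ℚ⟦X⟧) :
    Bl s' 0 (Dl s 1 (Bl s' 1 (Dl s 0 f))) = f := by
  have h1 := zigA (R := ℚ⟦X⟧) hs 0 (Bl s' 1 (Dl s 0 f))
  have h2 := zigB (R := ℚ⟦X⟧) hs 0 f
  simp only [Nat.zero_add] at h1 h2
  rw [h1, h2]

theorem val_J₀ (s s' : ℚ⟦X⟧) (hs : s * s' = 1) (f : Jones.F ℚ⟦X⟧) :
    opD s s' J₀ (fun _ => true) f = (s ^ 2 + s ^ 6 - s ^ 8) • f := by
  show Bl s' 1 (Xl s s' (cN s s' false) 0 (Xl s s' (cP s s' true) 1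
    (Xl s s' (cP s s' true) 1 (Dl s 0 f)))) = _
  have e : Bl s' 1 (Xl s s' (cN s s' false) 0 (Xl s s' (cP s s' true) 1
      (Xl s s' (cP s s' true) 1 (Dl s 0 f)))) = Bl s' 0 (Xl s s' (cP s s' true) 1
      (Xl s s' (cP s s' true) 1 (Xl s s' (cP s s' true) 1 (Dl s 0 f)))) :=
    (slideB hs (cP s s' true) 0 _).symm
  rw [e]
  simp only [Xl_apply, map_add, map_smul, circ, cP, if_true, z1 hs]
  funext σ
  simp only [Pi.add_apply, Pi.smul_apply, smul_eq_mul]
  linear_combination (s ^ 2 + 2 * s ^ 4 - 2 * s ^ 6 - s ^ 5 * s') * f σ * hs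

theorem val_J₁ (s s' : ℚ⟦X⟧) (hs : s * s' = 1) (f : Jones.F ℚ⟦X⟧) :
    opD s s' J₁ (fun _ => true) f = f := by
  show Bl s' 1 (Xl s s' (cP s s' false) 0 (Xl s s' (cP s s' true) 1
    (Xl s s' (cP s s' true) 1 (Dl s 0 f)))) = _
  have e : Bl s' 1 (Xl s s' (cP s s' false) 0 (Xl s s' (cP s s' true) 1
      (Xl s s' (cP s s' true) 1 (Dl s 0 f)))) = Bl s' 0 (Xl s s' (cN s s' true) 1
      (Xl s s' (cP s s' true) 1 (Xl s s' (cP s s' true) 1 (Dl s 0 f)))) :=
    (slideB hs (cN s s' true) 0 _).symm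
  rw [e, neg_pos hs]
  simp only [Xl_apply, map_add, map_smul, circ, cP, if_true, z1 hs]
  funext σ
  simp only [Pi.add_apply, Pi.smul_apply, smul_eq_mul]
  linear_combination f σ * hs

theorem coeff_pow (m : ℕ) : coeff 2 (sx ^ m) = (m.choose 2 : ℚ) := by
  have : (sx ^ m : ℚ⟦X⟧) = (((1 + Polynomial.X) ^ m : Polynomial ℚ) : ℚ⟦X⟧) := by
    simp [sx]
  rw [this, Polynomial.coeff_coe, Polynomial.coeff_one_add_X_pow]

/-- (T6) -/
theorem stmtInv (hw : StmtWiden) (hsw : StmtSwitch) (h₀ : IsStringLink 2 J₀)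
    (h₁ : IsStringLink 2 J₁) : StmtInv := by
  intro k hk
  refine ⟨jones k, jones_mem hsw k, ?_⟩
  rw [ev_mk _ (hw 2 k _ h₀ hk), ev_mk _ (hw 2 k _ h₁ hk), jones_mk, jones_mk]
  have e0 : valD J₀ = sx ^ 2 + sx ^ 6 - sx ^ 8 := by
    rw [valD, val_J₀ _ _ hsx]; simp
  have e1 : valD J₁ = 1 := by
    rw [valD, val_J₁ _ _ hsx]; rfl
  rw [e0, e1, map_sub, map_add, coeff_pow, coeff_pow, coeff_pow, coeff_one]
  norm_num [Nat.choose]

end

end Pool.Agent.H838R2.SL
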