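import Pool.Agent.H838R2.SL.T1
import Pool.Agent.H838R2.SL.T2
import Pool.Agent.H838R2.SL.T6

/-!
# Multiplication with the full twist of the first two strands
-/

set_option autoImplicit false

namespace Pool.Agent.H838R2.SL

open Pool.Agent.H835R2.Knot (Piece Word Front Fits run comps Move crossingSet switchAt up dn sw)
open Pool.Agent.H835R2.Knot.Piece
open Pool.Agent.H838R2.Jones

/-- the full twist -/
def tt : Word := [pos 0, pos 0]

/-- a power of the full twist -/
def tw : ℕ → Word
  | 0 => []
  | i + 1 => tt ++ tw i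

theorem run_append (u w : Word) (A : Front) : run (u ++ w) A = run w (run u A) := by
  induction u generalizing A with
  | nil => rfl
  | cons p u ih => exact ih _

theorem comps_append (u w : Word) (A : Front) : comps (u ++ w) A = comps u A + comps w (run u A) := by
  induction u generalizing A with
  | nil => simp [comps, run]
  | cons p u ih =>
    show (if p.closes A then 1 else 0) + comps (u ++ w) (p.act A) =
      (if p.closes A then 1 else 0) + comps u (p.act A) + comps w (run u (p.act A))
    rw [ih, add_assoc]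

theorem exits_append (u w : Word) (A : Front) (T : ℕ → ℕ) :
    exits (u ++ w) A T = exits w (run u A) (exits u A T) := by
  induction u generalizing A T with
  | nil => rfl
  | cons p u ih => exact ih _ _

theorem sw_sw (i p : ℕ) : sw i (sw i p) = p := by unfold sw; split_ifs <;> omega

/-- two crossings between the first two strands at the bottom -/
theorem sl_append {k : ℕ} (hk : 2 ≤ k) {D : Word} (h : IsStringLink k D) (p q : Piece)
    (hp : p = pos 0 ∨ p = neg 0) (hq : q = pos 0 ∨ q = neg 0) : IsStringLink k (D ++ [p, q]) := by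
  have hb := h.bottom
  refine ⟨?_, ?_, ?_, ?_⟩
  · rw [fits_append]
    refine ⟨h.fits, ?_⟩
    rcases hp with rfl | rfl <;> rcases hq with rfl | rfl <;>
      simp [H835R2.Knot.Fits, Piece.Fits, Piece.act, hb, hk]
  · rw [comps_append, h.no_closed]
    rcases hp with rfl | rfl <;> rcases hq with rfl | rfl <;>
      simp [comps, Piece.closes]
  · rw [run_append]
    rcases hp with rfl | rfl <;> rcases hq with rfl | rfl <;>
      simp [run, Piece.act, hb]
  · intro j hj
    rw [exits_append]
    have := h.ends j hj
    rcases hp with rfl | rfl <;> rcases hq with rfl | rfl <;>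
      simp [exits, exitP, this, sw_sw]

theorem sl_tt {k : ℕ} (hk : 2 ≤ k) {D : Word} (h : IsStringLink k D) : IsStringLink k (D ++ tt) :=
  sl_append hk h _ _ (Or.inl rfl) (Or.inl rfl)

theorem sl_tw {k : ℕ} (hk : 2 ≤ k) (i : ℕ) {D : Word} (h : IsStringLink k D) :
    IsStringLink k (D ++ tw i) := by
  induction i generalizing D with
  | zero => simpa [tw] using h
  | succ i ih =>
    rw [tw, ← List.append_assoc]
    exact ih (sl_tt hk h)

theorem rels_append (u w : Word) (c : ℕ) (m : ℕ → Lab) (hw : ∀ c m, rels w c m = ∅) :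
    rels (u ++ w) c m = rels u c m := by
  induction u generalizing c m with
  | nil => rw [List.nil_append, hw]; rfl
  | cons p u ih =>
    show rel p m ∪ rels (u ++ w) (c + maxP p) (lab p c m) = rel p m ∪ rels u (c + maxP p) (lab p c m)
    rw [ih]

theorem rels_tt (c : ℕ) (m : ℕ → Lab) : rels tt c m = ∅ := by
  simp [tt, rels, rel]

theorem maxs_tt (D : Word) : maxs (D ++ tt) = maxs D := by
  simp [maxs, tt, maxP]

theorem gp_tt (k : ℕ) (D : Word) (h : IsFreeGroup (Gp k D)) : IsFreeGroup (Gp k (D ++ tt)) := by
  have e : rels (D ++ tt) 0 top = rels D 0 top := rels_append D tt 0 top rels_tt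
  unfold Gp at h ⊢
  rw [e, maxs_tt]
  exact h

/-- multiplication with the full twist -/
def mulT {k : ℕ} (hk : 2 ≤ k) : StringLink k → StringLink k :=
  Quot.map (fun D => ⟨D.1 ++ tt, sl_tt hk D.2⟩) (by
    rintro ⟨D, hD⟩ ⟨E, hE⟩ h
    simp only at h ⊢
    cases h with
    | mk x l r y hm h1 h2 =>
      rw [List.append_assoc (x ++ l), List.append_assoc (x ++ r)]
      refine Step.mk x l r (y ++ tt) hm ?_ ?_
      · rw [← List.append_assoc]; exact sl_tt hk h1
      · rw [← List.append_assoc]; exact sl_tt hk h2)

theorem mulT_mk {k : ℕ} (hk : 2 ≤ k) {D : Word} (h : IsStringLink k D) :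
    mulT hk (mk D h) = mk (D ++ tt) (sl_tt hk h) := rfl

/-- the difference operator -/
def dl {k : ℕ} (hk : 2 ≤ k) (v : StringLink k → ℚ) : StringLink k → ℚ := fun A => v (mulT hk A) - v A

theorem dl_mk {k : ℕ} (hk : 2 ≤ k) (v : StringLink k → ℚ) {D : Word} (h : IsStringLink k D) :
    ev (dl hk v) D = ev v (D ++ tt) - ev v D := by
  rw [ev_mk _ h, ev_mk _ (sl_tt hk h), ev_mk _ h]
  rfl

theorem dl_add {k : ℕ} (hk : 2 ≤ k) (v w : StringLink k → ℚ) :
    dl hk (v + w) = dl hk v + dl hk w := by
  funext A
  simp only [dl, Pi.add_apply]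
  ring

theorem ev_step {k : ℕ} (v : StringLink k → ℚ) {D E : Word} (hD : IsStringLink k D)
    (hE : IsStringLink k E) (h : Step k D E) : ev v D = ev v E := by
  rw [ev_mk v hD, ev_mk v hE]
  exact congrArg v (Quot.sound h)

theorem sw'_append (T : Finset ℕ) (D E : Word) (m : ℕ) :
    sw' T m (D ++ E) = sw' T m D ++ sw' T (m + D.length) E := by
  induction D generalizing m with
  | nil => rfl
  | cons p w ih =>
    rw [List.cons_append, sw', sw', ih, List.cons_append, List.length_cons,
      show m + 1 + w.length = m + (w.length + 1) by omega]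

theorem sw'_congr {T T' : Finset ℕ} {D : Word} {m : ℕ}
    (h : ∀ x, m ≤ x → x < m + D.length → (x ∈ T ↔ x ∈ T')) : sw' T m D = sw' T' m D := by
  induction D generalizing m with
  | nil => rfl
  | cons p w ih =>
    rw [sw', sw', ih]
    · have := h m le_rfl (by simp)
      simp only [this]
    · intro x h1 h2
      exact h x (by omega) (by simp only [List.length_cons]; omega)

theorem dl_V {k : ℕ} (hk : 2 ≤ k) {n : ℕ} {v : StringLink k → ℚ} (hv : v ∈ V k (n + 1)) :
    dl hk v ∈ V k n := by
  intro D hD S hS hc
  have hlt : ∀ x ∈ S, x < D.length := by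
    intro x hx
    have h2 := hS hx
    simp only [crossingSet, Finset.mem_filter, Finset.mem_range] at h2
    exact h2.1
  have hnot : D.length ∉ S := fun h => lt_irrefl _ (hlt _ h)
  have hD' := sl_tt hk hD
  have hS' : insert D.length S ⊆ crossingSet (D ++ tt) := by
    intro x hx
    rw [Finset.mem_insert] at hx
    rcases hx with rfl | hx
    · simp [crossingSet, tt, Piece.isCrossing]
    · have h2 := hS hx
      simp only [crossingSet, Finset.mem_filter, Finset.mem_range] at h2 ⊢
      obtain ⟨h3, h4, h5⟩ := h2
      refine ⟨by simp only [List.length_append]; omega,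
        by simp only [List.length_append]; omega, ?_⟩
      rw [List.getElem_append_left h3]
      exact h5
  have h1 := hv (D ++ tt) hD' (insert D.length S) hS' (by
    rw [Finset.card_insert_of_notMem hnot, hc])
  rw [Finset.sum_powerset_insert hnot] at h1
  rw [← h1, ← Finset.sum_add_distrib]
  refine Finset.sum_congr rfl fun T hT => ?_
  have hTS := Finset.mem_powerset.1 hT
  have hnT : D.length ∉ T := fun h => hnot (hTS h)
  have hnT' : D.length + 1 ∉ T := fun h => by have := hlt _ (hTS h); omega
  have e1 : switchAt T (D ++ tt) = switchAt T D ++ tt := by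
    rw [switchAt_eq, switchAt_eq, sw'_append]
    congr 1
    simp [tt, sw', hnT, hnT']
  have e2 : switchAt (insert D.length T) (D ++ tt) = switchAt T D ++ [neg 0, pos 0] := by
    rw [switchAt_eq, switchAt_eq, sw'_append]
    congr 1
    · apply sw'_congr
      intro x _ hx
      rw [Finset.mem_insert]
      constructor
      · rintro (h | h)
        · omega
        · exact h
      · exact Or.inr
    · simp [tt, sw', hnT', Piece.switch]
  have hT' := switch k D T hD
  have e3 : ev v (switchAt T D ++ [neg 0, pos 0]) = ev v (switchAt T D) := by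
    have h3 := Step.mk (k := k) (switchAt T D) [neg 0, pos 0] [] [] (Move.second₂ 0)
      (by rw [List.append_nil]; exact sl_append hk hT' _ _ (Or.inr rfl) (Or.inl rfl))
      (by rw [List.append_nil, List.append_nil]; exact hT')
    rw [List.append_nil, List.append_nil, List.append_nil] at h3
    exact ev_step v (sl_append hk hT' _ _ (Or.inr rfl) (Or.inl rfl)) hT' h3
  rw [dl_mk hk v hT', e1, e2, e3, Finset.card_insert_of_notMem hnT, pow_succ]
  ring

theorem dl_N {k : ℕ} (hk : 2 ≤ k) {n : ℕ} {v : StringLink k → ℚ} (hv : v ∈ N k (n + 1)) :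
    dl hk v ∈ N k n := by
  refine ⟨dl_V hk hv.1, fun D h hf => ?_⟩
  show v (mulT hk (mk D h)) - v (mk D h) = 0
  rw [mulT_mk, hv.2 _ _ (gp_tt k D hf), hv.2 D h hf, sub_zero]

/-- iterated differences -/
def dlr {k : ℕ} (hk : 2 ≤ k) : ℕ → (StringLink k → ℚ) → StringLink k → ℚ
  | 0, v => v
  | r + 1, v => dlr hk r (dl hk v)

theorem dlr_V {k : ℕ} (hk : 2 ≤ k) (r : ℕ) {n : ℕ} {v : StringLink k → ℚ}
    (hv : v ∈ V k (n + r)) : dlr hk r v ∈ V k n := by
  induction r generalizing v with
  | zero => exact hv
  | succ r ih => exact ih (dl_V hk hv)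

theorem dlr_N {k : ℕ} (hk : 2 ≤ k) (r : ℕ) {n : ℕ} {v : StringLink k → ℚ}
    (hv : v ∈ N k (n + r)) : dlr hk r v ∈ N k n := by
  induction r generalizing v with
  | zero => exact hv
  | succ r ih => exact ih (dl_N hk hv)

theorem dlr_add {k : ℕ} (hk : 2 ≤ k) (r : ℕ) (v w : StringLink k → ℚ) :
    dlr hk r (v + w) = dlr hk r v + dlr hk r w := by
  induction r generalizing v w with
  | zero => rfl
  | succ r ih => rw [dlr, dl_add, ih]; rfl

theorem append_tt_tw (D : Word) (i : ℕ) : D ++ tw i ++ tt = D ++ tw (i + 1) := by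
  have : ∀ i, tw i ++ tt = tt ++ tw i := by
    intro i
    induction i with
    | zero => simp [tw]
    | succ i ih => rw [tw, List.append_assoc, ih]
  rw [List.append_assoc, this]
  rfl

/-- two invariants of which all twisted values agree have the same differences -/
theorem dlr_agree {k : ℕ} (hk : 2 ≤ k) (r : ℕ) {D E : Word} (hD : IsStringLink k D)
    (hE : IsStringLink k E) {v : StringLink k → ℚ}
    (h : ∀ i, ev v (D ++ tw i) = ev v (E ++ tw i)) :
    ev (dlr hk r v) D = ev (dlr hk r v) E := by
  induction r generalizing v with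
  | zero => simpa [tw, dlr] using h 0
  | succ r ih =>
    apply ih
    intro i
    rw [dl_mk hk v (sl_tw hk i hD), dl_mk hk v (sl_tw hk i hE), append_tt_tw, append_tt_tw, h, h]

end Pool.Agent.H838R2.SL
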