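import Pool.Agent.H838R2.SL.T4
import Pool.Agent.H838R2.SL.T8

/-!
# Longitudes of `J₀` and `J₁` followed by full twists
-/

set_option autoImplicit false

namespace Pool.Agent.H838R2.SL

open Pool.Agent.H835R2.Knot (Piece Word Front Fits run comps Move crossingSet switchAt up dn sw)
open Pool.Agent.H835R2.Knot.Piece

/-- the labels below a word -/
def labs : Word → ℕ → (ℕ → Lab) → ℕ → Lab
  | [], _, m => m
  | p :: w, c, m => labs w (c + maxP p) (lab p c m)

theorem par_append (u w : Word) (c : ℕ) (A : Front) (m : ℕ → Lab) (T : ℕ → ℕ) (Q : Par) :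
    ∃ c', par (u ++ w) c A m T Q =
      par w c' (run u A) (labs u c m) (exits u A T) (par u c A m T Q) := by
  induction u generalizing c A m T Q with
  | nil => exact ⟨c, rfl⟩
  | cons p u ih => exact ih _ _ _ _ _

theorem alg1 {G : Type} [Group G] (q a b x y : G) :
    q * b * ((a * b)⁻¹ * x * (a * b) * y) = q * (a⁻¹ * x * (a * b * y)) := by group

theorem alg2 {G : Type} [Group G] (q a b x y : G) :
    q * (b⁻¹ * (a * b)) * ((a * b)⁻¹ * x * (a * b) * y) = q * (b⁻¹ * x * (a * b * y)) := by group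

/-- the factors collected in a power of the full twist -/
theorem par_tw (i : ℕ) : ∀ (c : ℕ) (A : Front) (m : ℕ → Lab) (T : ℕ → ℕ) (Q : Par) (j : ℕ),
    (T j = 0 → (par (tw i) c A m T Q).top j = Q.top j * ((m 0) ^ (-i : ℤ) * (m 0 * m 1) ^ i)) ∧
    (T j = 1 → (par (tw i) c A m T Q).top j = Q.top j * ((m 1) ^ (-i : ℤ) * (m 0 * m 1) ^ i)) ∧
    (2 ≤ T j → (par (tw i) c A m T Q).top j = Q.top j) := by
  induction i with
  | zero =>
    intro c A m T Q j
    simp [tw, par]
  | succ i ih =>
    intro c A m T Q j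
    set m' : ℕ → Lab := lab (pos 0) c (lab (pos 0) c m) with hm'
    have h0 : m' 0 = (m 0 * m 1)⁻¹ * m 0 * (m 0 * m 1) := by
      simp [hm', lab, mul_assoc]
    have h1 : m' 1 = (m 0 * m 1)⁻¹ * m 1 * (m 0 * m 1) := by
      simp [hm', lab, mul_assoc]
    have hP : m' 0 * m' 1 = m 0 * m 1 := by
      rw [h0, h1]; group
    have step := ih (c + maxP (pos 0) + maxP (pos 0)) ((pos 0).act ((pos 0).act A)) m'
      (exitP (pos 0) ((pos 0).act A) (exitP (pos 0) A T))
      (parP (pos 0) ((pos 0).act A) (lab (pos 0) c m) (exitP (pos 0) A T)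
        (parP (pos 0) A m T Q)) j
    have eT : exitP (pos 0) ((pos 0).act A) (exitP (pos 0) A T) j = T j := sw_sw 0 (T j)
    rw [eT, hP] at step
    have key : ∀ x : ℤ, ∀ g : Lab, ((m 0 * m 1)⁻¹ * g * (m 0 * m 1)) ^ x =
        (m 0 * m 1)⁻¹ * g ^ x * (m 0 * m 1) := by
      intro x g
      have := conj_zpow (i := x) (a := (m 0 * m 1)⁻¹) (b := g)
      rw [inv_inv] at this
      exact this
    refine ⟨fun hT => ?_, fun hT => ?_, fun hT => ?_⟩
    · have e := step.1 hT
      have e2 : (parP (pos 0) ((pos 0).act A) (lab (pos 0) c m) (exitP (pos 0) A T)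
        (parP (pos 0) A m T Q)).top j = Q.top j * m 1 := by
        simp [parP, exitP, hT, sw]
      show (par (tw i) _ _ m' _ _).top j = _
      rw [e, e2, h0, key]
      rw [show (-((i + 1 : ℕ) : ℤ)) = -1 + -(i : ℤ) by push_cast; ring, zpow_add, pow_succ',
        zpow_neg_one]
      exact alg1 _ _ _ _ _
    · have e := step.2.1 hT
      have e2 : (parP (pos 0) ((pos 0).act A) (lab (pos 0) c m) (exitP (pos 0) A T)
        (parP (pos 0) A m T Q)).top j = Q.top j * ((m 1)⁻¹ * (m 0 * m 1)) := by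
        simp [parP, exitP, hT, sw, lab, mul_assoc]
      show (par (tw i) _ _ m' _ _).top j = _
      rw [e, e2, h1, key]
      rw [show (-((i + 1 : ℕ) : ℤ)) = -1 + -(i : ℤ) by push_cast; ring, zpow_add, pow_succ',
        zpow_neg_one]
      exact alg2 _ _ _ _ _
    · have e := step.2.2 hT
      have e2 : (parP (pos 0) ((pos 0).act A) (lab (pos 0) c m) (exitP (pos 0) A T)
        (parP (pos 0) A m T Q)).top j = Q.top j := by
        have a1 : T j ≠ 0 := by omega
        have a2 : T j ≠ 1 := by omega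
        simp [parP, exitP, sw, a1, a2]
      show (par (tw i) _ _ m' _ _).top j = _
      rw [e, e2]

/-- the group theoretic part -/
theorem t10_main (k : ℕ) (D : Word) (hmax : maxs D = 1) (R : Lab)
    (hR : rels D 0 top = {R})
    (hab : ∀ f : Lab →* Multiplicative ℤ, f R = f (top 0) * f (left 0))
    (hlcs : ∀ n, el k D (top 0 * left 0) ∈ (⊤ : Subgroup (Gp k D)).lowerCentralSeries n)
    (j : ℕ) (hj : j < k) (e : ℤ) (W : Lab)
    (hP : ∀ (H : Type) [Group H] (f : Lab →* H), f (top 0) * f (left 0) = 1 →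
      f (planar k D j) = f (top j) ^ e * f W)
    (hW : ∀ f : Lab →* Multiplicative ℤ,
      (∀ i < k, f (top i) = if i = j then Multiplicative.ofAdd 1 else 1) → f W = 1) :
    (∃ l, IsLongitude k D j l) ∧ ∀ l, IsLongitude k D j l →
      ∀ n, (el k D W)⁻¹ * l ∈ (⊤ : Subgroup (Gp k D)).lowerCentralSeries n := by
  have hf : ∀ f : Gp k D →* Multiplicative ℤ, f (el k D (top 0)) * f (el k D (left 0)) = 1 := by
    intro f
    have h1 := hab (f.comp (PresentedGroup.mk _))
    have h2 : (PresentedGroup.mk (rels D 0 top ∪ {g | ∃ j, k ≤ j ∧ g = top j} ∪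
        {g | ∃ c, maxs D ≤ c ∧ g = left c}) R : Gp k D) = 1 := by
      apply PresentedGroup.one_of_mem
      left; left
      rw [hR]
      rfl
    have h3 : f (PresentedGroup.mk _ R) = 1 := by
      rw [h2, map_one]
    exact h1.symm.trans h3
  have hex : ∃ f : Gp k D →* Multiplicative ℤ,
      ∀ i < k, f (el k D (top i)) = if i = j then Multiplicative.ofAdd 1 else 1 := by
    let f0 : ℕ ⊕ ℕ → Multiplicative ℤ := Sum.elim
      (fun i => if i = j then Multiplicative.ofAdd 1 else 1)
      (fun c => if c = 0 ∧ j = 0 then (Multiplicative.ofAdd 1)⁻¹ else 1)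
    have htop : ∀ i, FreeGroup.lift f0 (top i) = if i = j then Multiplicative.ofAdd 1 else 1 := by
      intro i
      simp [top, f0]
    have hleft : ∀ c, FreeGroup.lift f0 (left c)
        = if c = 0 ∧ j = 0 then (Multiplicative.ofAdd 1)⁻¹ else 1 := by
      intro c
      simp [left, f0]
    refine ⟨PresentedGroup.toGroup (f := f0) ?_, ?_⟩
    · intro r hr
      rcases hr with (hr | ⟨i, hi, rfl⟩) | ⟨c, hc, rfl⟩
      · rw [hR] at hr
        rw [Set.mem_singleton_iff.mp hr, hab, htop, hleft]
        rcases Nat.eq_zero_or_pos j with h0 | h0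
        · subst h0
          simp
        · rw [if_neg (by omega), if_neg (by omega)]
          simp
      · rw [htop, if_neg (by omega)]
      · rw [hleft, if_neg (by omega)]
    · intro i _
      exact htop i
  have hval : ∀ (f : Gp k D →* Multiplicative ℤ) (x : ℤ),
      (∀ i < k, f (el k D (top i)) = if i = j then Multiplicative.ofAdd 1 else 1) →
      f (el k D (top j ^ x * planar k D j)) = Multiplicative.ofAdd (x + e) := by
    intro f x h1
    have h2 := hP _ (f.comp (PresentedGroup.mk _)) (hf f)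
    have h3 := hW (f.comp (PresentedGroup.mk _)) h1
    have h4 : f (el k D (top j ^ x * planar k D j)) =
        (f.comp (PresentedGroup.mk _)) (top j ^ x * planar k D j) := rfl
    have h5 : (f.comp (PresentedGroup.mk (rels D 0 top ∪ {g | ∃ j, k ≤ j ∧ g = top j} ∪
        {g | ∃ c, maxs D ≤ c ∧ g = left c}))) (top j) = Multiplicative.ofAdd 1 := by
      have := h1 j hj
      rw [if_pos rfl] at this
      exact this
    rw [h4, map_mul, map_zpow, h2, h3, mul_one, h5, ← zpow_add, ← ofAdd_zsmul]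
    simp
  refine ⟨⟨el k D (top j ^ (-e) * planar k D j), ⟨-e, rfl⟩, ?_⟩, ?_⟩
  · intro f h1
    rw [hval f _ h1]
    simp
  · rintro l ⟨⟨x, rfl⟩, hl⟩ n
    obtain ⟨f, h1⟩ := hex
    have h3 := hl f h1
    rw [hval f _ h1] at h3
    have h4 : x + e = 0 := by
      have := congrArg Multiplicative.toAdd h3
      simpa using this
    rw [← QuotientGroup.eq_one_iff]
    have h5 := (QuotientGroup.eq_one_iff (N := (⊤ : Subgroup (Gp k D)).lowerCentralSeries n)
      (el k D (top 0 * left 0))).mpr (hlcs n)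
    let g : Lab →* Gp k D ⧸ (⊤ : Subgroup (Gp k D)).lowerCentralSeries n :=
      (QuotientGroup.mk' _).comp (PresentedGroup.mk _)
    have h6 : g (top 0) * g (left 0) = 1 := by
      rw [← map_mul]
      exact h5
    have h7 := hP _ g h6
    have h8 : g (W⁻¹ * (top j ^ x * planar k D j)) = 1 := by
      rw [map_mul, map_mul, map_zpow, map_inv, h7, ← mul_assoc (g (top j) ^ x), ← zpow_add, h4,
        zpow_zero, one_mul, inv_mul_cancel]
    exact h8

set_option linter.unusedSimpArgs false in
theorem labs0 : labs J₀ 0 top 0 = left 0 * (top 0)⁻¹ * (left 0)⁻¹ * top 0 * (left 0)⁻¹ ∧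
    labs J₀ 0 top 1 = top 1 := by
  constructor <;> simp [labs, J₀, lab, maxP, up, mul_assoc]

set_option linter.unusedSimpArgs false in
theorem labs1 : labs J₁ 0 top 0 = (top 0)⁻¹ * (left 0)⁻¹ * top 0 ∧
    labs J₁ 0 top 1 = top 1 := by
  constructor <;> simp [labs, J₁, lab, maxP, up, mul_assoc]

theorem planar_tw (k : ℕ) (D : Word) (i j : ℕ)
    (hj : exits D (start k) (fun j => j) j = j) :
    (j = 0 → planar k (D ++ tw i) j = planar k D j *
      ((labs D 0 top 0) ^ (-i : ℤ) * (labs D 0 top 0 * labs D 0 top 1) ^ i)) ∧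
    (j = 1 → planar k (D ++ tw i) j = planar k D j *
      ((labs D 0 top 1) ^ (-i : ℤ) * (labs D 0 top 0 * labs D 0 top 1) ^ i)) ∧
    (2 ≤ j → planar k (D ++ tw i) j = planar k D j) := by
  obtain ⟨c', h⟩ := par_append D (tw i) 0 (start k) top (fun j => j)
    ⟨fun _ => 1, fun _ => 1⟩
  have h2 := par_tw i c' (run D (start k)) (labs D 0 top) (exits D (start k) (fun j => j))
    (par D 0 (start k) top (fun j => j) ⟨fun _ => 1, fun _ => 1⟩) j
  rw [← h, hj] at h2
  exact h2

/-- the words of the longitudes -/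
def Wd (i j : ℕ) : Lab :=
  if j = 0 then (top 0) ^ (-i : ℤ) * (top 0 * top 1) ^ i
  else if j = 1 then (top 1) ^ (-i : ℤ) * (top 0 * top 1) ^ i
  else 1

theorem Wd_hom {k : ℕ} (hk : 2 ≤ k) (i j : ℕ) (hj : j < k) (f : Lab →* Multiplicative ℤ)
    (h : ∀ i < k, f (top i) = if i = j then Multiplicative.ofAdd 1 else 1) : f (Wd i j) = 1 := by
  unfold Wd
  split_ifs with h1 h2
  · subst h1
    rw [map_mul, map_zpow, map_pow, map_mul, h 0 (by omega), h 1 (by omega)]
    simp
  · subst h2
    rw [map_mul, map_zpow, map_pow, map_mul, h 0 (by omega), h 1 (by omega)]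
    simp
  · exact map_one f

theorem rels_tw (D : Word) (i : ℕ) : rels (D ++ tw i) 0 top = rels D 0 top := by
  apply rels_append
  induction i with
  | zero => intro c m; rfl
  | succ i ih =>
    intro c m
    rw [tw, rels_append tt (tw i) c m ih, rels_tt]

theorem maxs_tw (D : Word) (i : ℕ) : maxs (D ++ tw i) = maxs D := by
  induction i generalizing D with
  | zero => simp [tw]
  | succ i ih => rw [tw, ← List.append_assoc, ih, maxs_tt]

theorem meridians_of {k : ℕ} (hk : 2 ≤ k) (i : ℕ) (j : Fin k) : ∃ w : FreeGroup (Fin k),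
    ∀ D, meridians k D w = el k D (Wd i j) := by
  have e : ∀ (D : Word) (a b : Lab), el k D (a * b) = el k D a * el k D b := fun _ _ _ => rfl
  have ep : ∀ (D : Word) (a : Lab) (n : ℕ), el k D (a ^ n) = el k D a ^ n := fun D a n =>
    map_pow (PresentedGroup.mk _) a n
  have ez : ∀ (D : Word) (a : Lab) (n : ℤ), el k D (a ^ n) = el k D a ^ n := fun D a n =>
    map_zpow (PresentedGroup.mk _) a n
  by_cases h0 : (j : ℕ) = 0
  · refine ⟨(FreeGroup.of ⟨0, by omega⟩) ^ (-i : ℤ) *
      (FreeGroup.of ⟨0, by omega⟩ * FreeGroup.of ⟨1, by omega⟩) ^ i, fun D => ?_⟩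
    rw [Wd, if_pos h0, e, ez, ep, e]
    simp [meridians]
  · by_cases h1 : (j : ℕ) = 1
    · refine ⟨(FreeGroup.of ⟨1, by omega⟩) ^ (-i : ℤ) *
        (FreeGroup.of ⟨0, by omega⟩ * FreeGroup.of ⟨1, by omega⟩) ^ i, fun D => ?_⟩
      rw [Wd, if_neg h0, if_pos h1, e, ez, ep, e]
      simp [meridians]
    · refine ⟨1, fun D => ?_⟩
      rw [Wd, if_neg h0, if_neg h1, map_one]
      rfl

/-- the longitudes of `J₀` and `J₁` followed by full twists are given by the same words, modulo the
lower central series -/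
theorem long_tw {k : ℕ} (hk : 2 ≤ k) (h₀ : IsStringLink k J₀) (h₁ : IsStringLink k J₁) (i : ℕ)
    (j : Fin k) : ∃ w : FreeGroup (Fin k), ∀ D, D = J₀ ∨ D = J₁ →
      (∃ l, IsLongitude k (D ++ tw i) j l) ∧ ∀ l, IsLongitude k (D ++ tw i) j l →
      ∀ n, (meridians k (D ++ tw i) w)⁻¹ * l ∈
        (⊤ : Subgroup (Gp k (D ++ tw i))).lowerCentralSeries n := by
  obtain ⟨w, hw⟩ := meridians_of hk i j
  refine ⟨w, fun D hD => ?_⟩
  rw [hw]
  have hjk := j.2
  rcases hD with rfl | rfl
  · have hp := planar_tw k J₀ i j (h₀.ends j hjk)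
    refine t10_main k (J₀ ++ tw i) (by rw [maxs_tw]; rfl) _ (by rw [rels_tw, t4_rels0]) ?_ ?_ j hjk
      (if (j : ℕ) = 0 then 3 else 0) (Wd i j) ?_ (Wd_hom hk i j hjk)
    · intro f
      simp only [map_mul, map_inv]
      generalize f (top 0) = x
      generalize f (left 0) = y
      have e1 : y * x * y⁻¹ = x := by rw [mul_comm y x, mul_inv_cancel_right]
      rw [e1, inv_mul_cancel_right]
    · intro n
      have := t4_core (el k (J₀ ++ tw i) (top 0)) (el k (J₀ ++ tw i) (left 0)) (by
        have h2 : (PresentedGroup.mk (rels (J₀ ++ tw i) 0 top ∪ {g | ∃ j, k ≤ j ∧ g = top j} ∪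
          {g | ∃ c, maxs (J₀ ++ tw i) ≤ c ∧ g = left c})
            (top 0 * left 0 * (top 0)⁻¹ * (left 0 * top 0 * (left 0)⁻¹)) :
              Gp k (J₀ ++ tw i)) = 1 := by
          apply PresentedGroup.one_of_mem
          left; left
          rw [rels_tw, t4_rels0]
          rfl
        simpa [el] using h2) n
      simpa [el] using this
    · intro H _ f h
      have hb : f (left 0) = (f (top 0))⁻¹ := eq_inv_of_mul_eq_one_right h
      have hm0 : f (labs J₀ 0 top 0) = f (top 0) := by
        rw [labs0.1]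
        simp only [map_mul, map_inv, hb]
        group
      have hm1 : f (labs J₀ 0 top 1) = f (top 1) := by rw [labs0.2]
      unfold Wd
      split_ifs with a1 a2
      · rw [hp.1 a1, a1, map_mul, map_mul, map_zpow, map_pow, map_mul, hm0, hm1, t4_planar0,
          map_mul f (top 0 ^ (-(i : ℤ))), map_zpow f (top 0), map_pow, map_mul f (top 0) (top 1)]
        simp only [map_mul, map_inv, hb]
        group
      · rw [hp.2.1 a2, a2, t4_planar0' k 1 le_rfl, one_mul, zpow_zero, one_mul]
        simp only [map_mul, map_zpow, map_pow, hm0, hm1]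
      · rw [hp.2.2 (by omega), t4_planar0' k j (by omega), zpow_zero, one_mul]
  · have hp := planar_tw k J₁ i j (h₁.ends j hjk)
    refine t10_main k (J₁ ++ tw i) (by rw [maxs_tw]; rfl) _ (by rw [rels_tw, t4_rels1]) ?_ ?_ j hjk
      (if (j : ℕ) = 0 then 1 else 0) (Wd i j) ?_ (Wd_hom hk i j hjk)
    · intro f
      rw [map_mul, mul_comm]
    · intro n
      have h2 : (PresentedGroup.mk (rels (J₁ ++ tw i) 0 top ∪ {g | ∃ j, k ≤ j ∧ g = top j} ∪
          {g | ∃ c, maxs (J₁ ++ tw i) ≤ c ∧ g = left c}) (left 0 * top 0) :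
            Gp k (J₁ ++ tw i)) = 1 := by
        apply PresentedGroup.one_of_mem
        left; left
        rw [rels_tw, t4_rels1]
        rfl
      have h3 : el k (J₁ ++ tw i) (top 0 * left 0) = 1 := by
        have h4 : el k (J₁ ++ tw i) (left 0) * el k (J₁ ++ tw i) (top 0) = 1 := by
          simpa [el] using h2
        have h5 : el k (J₁ ++ tw i) (top 0) * el k (J₁ ++ tw i) (left 0) = 1 :=
          mul_eq_one_comm.mp h4
        simpa [el] using h5
      rw [h3]
      exact Subgroup.one_mem _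
    · intro H _ f h
      have hb : f (left 0) = (f (top 0))⁻¹ := eq_inv_of_mul_eq_one_right h
      have hm0 : f (labs J₁ 0 top 0) = f (top 0) := by
        rw [labs1.1]
        simp only [map_mul, map_inv, hb]
        group
      have hm1 : f (labs J₁ 0 top 1) = f (top 1) := by rw [labs1.2]
      unfold Wd
      split_ifs with a1 a2
      · rw [hp.1 a1, a1, map_mul, map_mul, map_zpow, map_pow, map_mul, hm0, hm1, t4_planar1,
          map_mul f (top 0 ^ (-(i : ℤ))), map_zpow f (top 0), map_pow, map_mul f (top 0) (top 1)]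
        group
      · rw [hp.2.1 a2, a2, t4_planar1' k 1 le_rfl, one_mul, zpow_zero, one_mul]
        simp only [map_mul, map_zpow, map_pow, hm0, hm1]
      · rw [hp.2.2 (by omega), t4_planar1' k j (by omega), zpow_zero, one_mul]

end Pool.Agent.H838R2.SL
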