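import Pool.Agent.H838R2.SL.Stubs

/-!
# T3: the groups of `L` and `L'` are free
-/

set_option autoImplicit false

namespace Pool.Agent.H838R2.SL

open Pool.Agent.H835R2.Knot (Piece Word Front Fits run comps Move crossingSet switchAt up dn sw)
open Pool.Agent.H835R2.Knot.Piece

theorem T3_relsL : rels L 0 top =
    {top 0 * top 1 * left 0 * (top 1)⁻¹ * (top 0)⁻¹ * (left 0 * top 0 * (left 0)⁻¹)} := by
  simp only [rels, rel, lab, L]
  simp
  group

theorem T3_relsL' : rels L' 0 top =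
    {top 1 * left 0 * (top 1)⁻¹ * left 0 * top 1 * (left 0)⁻¹ * (top 1)⁻¹ * top 0 *
      (top 1 * left 0 * (top 1)⁻¹ * (left 0)⁻¹)} := by
  simp only [rels, rel, lab, L']
  simp
  group

theorem T3_iso {k : ℕ} {R : Set (FreeGroup (ℕ ⊕ ℕ))} (f : ℕ ⊕ ℕ → FreeGroup (Fin k))
    (g : Fin k → PresentedGroup R) (hf : ∀ r ∈ R, FreeGroup.lift f r = 1)
    (h1 : ∀ i, PresentedGroup.toGroup hf (g i) = FreeGroup.of i)
    (h2 : ∀ x, FreeGroup.lift g (f x) = PresentedGroup.of x) : IsFreeGroup (PresentedGroup R) := by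
  have e1 : (PresentedGroup.toGroup hf).comp (FreeGroup.lift g) = MonoidHom.id _ := by
    ext i
    simp [h1]
  have e2 : (FreeGroup.lift g).comp (PresentedGroup.toGroup hf) = MonoidHom.id _ := by
    apply PresentedGroup.ext
    intro x
    simp [h2]
  exact IsFreeGroup.ofMulEquiv
    (MonoidHom.toMulEquiv (FreeGroup.lift g) (PresentedGroup.toGroup hf) e1 e2)

/-- images of the generators, `L` -/
def T3_fL (k : ℕ) (hk : 2 ≤ k) : ℕ ⊕ ℕ → FreeGroup (Fin k)
  | Sum.inl 0 => FreeGroup.of ⟨1, by omega⟩ * (FreeGroup.of ⟨0, by omega⟩)⁻¹ *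
      (FreeGroup.of ⟨1, by omega⟩)⁻¹
  | Sum.inl 1 => FreeGroup.of ⟨1, by omega⟩ * FreeGroup.of ⟨0, by omega⟩ *
      (FreeGroup.of ⟨1, by omega⟩)⁻¹ * FreeGroup.of ⟨0, by omega⟩ * FreeGroup.of ⟨1, by omega⟩
  | Sum.inl (j + 2) => if h : j + 2 < k then FreeGroup.of ⟨j + 2, h⟩ else 1
  | Sum.inr 0 => FreeGroup.of ⟨0, by omega⟩
  | Sum.inr (_ + 1) => 1

/-- images of the generators, `L'` -/
def T3_fL' (k : ℕ) (hk : 2 ≤ k) : ℕ ⊕ ℕ → FreeGroup (Fin k)
  | Sum.inl 0 => (FreeGroup.of ⟨0, by omega⟩ * FreeGroup.of ⟨1, by omega⟩ *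
      (FreeGroup.of ⟨0, by omega⟩)⁻¹ * FreeGroup.of ⟨1, by omega⟩ * FreeGroup.of ⟨0, by omega⟩ *
      (FreeGroup.of ⟨1, by omega⟩)⁻¹ * (FreeGroup.of ⟨0, by omega⟩)⁻¹)⁻¹ *
      (FreeGroup.of ⟨0, by omega⟩ * FreeGroup.of ⟨1, by omega⟩ *
      (FreeGroup.of ⟨0, by omega⟩)⁻¹ * (FreeGroup.of ⟨1, by omega⟩)⁻¹)⁻¹
  | Sum.inl 1 => FreeGroup.of ⟨0, by omega⟩
  | Sum.inl (j + 2) => if h : j + 2 < k then FreeGroup.of ⟨j + 2, h⟩ else 1
  | Sum.inr 0 => FreeGroup.of ⟨1, by omega⟩
  | Sum.inr (_ + 1) => 1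

/-- the inverse, `L` -/
def T3_gL (k : ℕ) (D : Word) (i : Fin k) : Gp k D :=
  if i.val = 0 then el k D (left 0)
  else if i.val = 1 then (el k D (left 0))⁻¹ * el k D (top 0) * el k D (top 1)
  else el k D (top i.val)

/-- the inverse, `L'` -/
def T3_gL' (k : ℕ) (D : Word) (i : Fin k) : Gp k D :=
  if i.val = 0 then el k D (top 1)
  else if i.val = 1 then el k D (left 0)
  else el k D (top i.val)

theorem T3_mul (k : ℕ) (D : Word) (a b : Lab) : el k D (a * b) = el k D a * el k D b := rfl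
theorem T3_inv (k : ℕ) (D : Word) (a : Lab) : el k D a⁻¹ = (el k D a)⁻¹ := rfl

theorem T3_rel {k : ℕ} {D : Word} {r : Lab} (h : rels D 0 top = {r}) : el k D r = 1 := by
  apply PresentedGroup.one_of_mem
  left
  left
  rw [h]
  rfl

theorem T3_top {k : ℕ} {D : Word} {j : ℕ} (h : k ≤ j) : el k D (top j) = 1 := by
  apply PresentedGroup.one_of_mem
  left
  right
  exact ⟨j, h, rfl⟩

theorem T3_left {k : ℕ} {D : Word} {j : ℕ} (h : maxs D ≤ j) : el k D (left j) = 1 := by
  apply PresentedGroup.one_of_mem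
  right
  exact ⟨j, h, rfl⟩

theorem T3_freeL (k : ℕ) (hk : 2 ≤ k) : IsFreeGroup (Gp k L) := by
  have hmax : maxs L = 1 := rfl
  have hf : ∀ r ∈ rels L 0 top ∪ {g | ∃ j, k ≤ j ∧ g = top j} ∪ {g | ∃ c, maxs L ≤ c ∧ g = left c},
      FreeGroup.lift (T3_fL k hk) r = 1 := by
    rintro r ((h | ⟨j, hj, rfl⟩) | ⟨c, hc, rfl⟩)
    · rw [T3_relsL, Set.mem_singleton_iff] at h
      subst h
      simp only [map_mul, map_inv, top, left, FreeGroup.lift_apply_of, T3_fL]
      group
    · obtain ⟨j', rfl⟩ : ∃ j', j = j' + 2 := ⟨j - 2, by omega⟩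
      simp only [top, FreeGroup.lift_apply_of, T3_fL]
      rw [dif_neg (by omega)]
    · rw [hmax] at hc
      obtain ⟨c', rfl⟩ : ∃ c', c = c' + 1 := ⟨c - 1, by omega⟩
      simp only [left, FreeGroup.lift_apply_of, T3_fL]
  have hrel := T3_rel (k := k) (D := L) T3_relsL
  simp only [T3_mul, T3_inv] at hrel
  refine T3_iso (T3_fL k hk) (T3_gL k L) hf ?_ ?_
  · intro i
    obtain ⟨i, hi⟩ := i
    unfold T3_gL
    have e : ∀ x : Lab, PresentedGroup.toGroup hf (el k L x) = FreeGroup.lift (T3_fL k hk) x :=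
      fun x => rfl
    rcases i with _ | _ | i
    · rw [if_pos rfl, e]
      simp only [left, FreeGroup.lift_apply_of, T3_fL]
    · rw [if_neg (by simp), if_pos rfl, map_mul, map_mul, map_inv, e, e, e]
      simp only [left, top, FreeGroup.lift_apply_of, T3_fL]
      group
    · rw [if_neg (by simp), if_neg (by simp), e]
      simp only [top, FreeGroup.lift_apply_of, T3_fL]
      rw [dif_pos hi]
  · intro x
    set A := el k L (top 0) with hA
    set S := el k L (top 1) with hS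
    set B := el k L (left 0) with hB
    have hg0 : T3_gL k L ⟨0, by omega⟩ = B := by
      unfold T3_gL; rw [if_pos rfl]
    have hg1 : T3_gL k L ⟨1, by omega⟩ = B⁻¹ * A * S := by
      unfold T3_gL; rw [if_neg (by simp), if_pos rfl]
    rcases x with (_ | _ | j) | (_ | c)
    · simp only [T3_fL, map_mul, map_inv, FreeGroup.lift_apply_of, hg0, hg1]
      change _ = A
      have h3 : B * A * B⁻¹ = (A * S * B * S⁻¹ * A⁻¹)⁻¹ := (inv_eq_of_mul_eq_one_right hrel).symm
      calc B⁻¹ * A * S * B⁻¹ * (B⁻¹ * A * S)⁻¹ = B⁻¹ * (A * S * B * S⁻¹ * A⁻¹)⁻¹ * B := by group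
        _ = A := by rw [← h3]; group
    · simp only [T3_fL, map_mul, map_inv, FreeGroup.lift_apply_of, hg0, hg1]
      change _ = S
      have h3 : A * S * B * S⁻¹ * A⁻¹ = (B * A * B⁻¹)⁻¹ := eq_inv_of_mul_eq_one_left hrel
      calc B⁻¹ * A * S * B * (B⁻¹ * A * S)⁻¹ * B * (B⁻¹ * A * S)
          = B⁻¹ * (A * S * B * S⁻¹ * A⁻¹) * B * A * S := by group
        _ = S := by rw [h3]; group
    · simp only [T3_fL]
      split_ifs with h
      · rw [FreeGroup.lift_apply_of]
        unfold T3_gL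
        rw [if_neg (by simp), if_neg (by simp)]
        rfl
      · rw [map_one]
        exact (T3_top (by omega)).symm
    · simp only [T3_fL, FreeGroup.lift_apply_of, hg0]
      rfl
    · simp only [T3_fL, map_one]
      exact (T3_left (by rw [hmax]; omega)).symm

theorem T3_freeL' (k : ℕ) (hk : 2 ≤ k) : IsFreeGroup (Gp k L') := by
  have hmax : maxs L' = 1 := rfl
  have hf : ∀ r ∈ rels L' 0 top ∪ {g | ∃ j, k ≤ j ∧ g = top j} ∪
      {g | ∃ c, maxs L' ≤ c ∧ g = left c}, FreeGroup.lift (T3_fL' k hk) r = 1 := by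
    rintro r ((h | ⟨j, hj, rfl⟩) | ⟨c, hc, rfl⟩)
    · rw [T3_relsL', Set.mem_singleton_iff] at h
      subst h
      simp only [map_mul, map_inv, top, left, FreeGroup.lift_apply_of, T3_fL']
      group
    · obtain ⟨j', rfl⟩ : ∃ j', j = j' + 2 := ⟨j - 2, by omega⟩
      simp only [top, FreeGroup.lift_apply_of, T3_fL']
      rw [dif_neg (by omega)]
    · rw [hmax] at hc
      obtain ⟨c', rfl⟩ : ∃ c', c = c' + 1 := ⟨c - 1, by omega⟩
      simp only [left, FreeGroup.lift_apply_of, T3_fL']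
  have hrel := T3_rel (k := k) (D := L') T3_relsL'
  simp only [T3_mul, T3_inv] at hrel
  refine T3_iso (T3_fL' k hk) (T3_gL' k L') hf ?_ ?_
  · intro i
    obtain ⟨i, hi⟩ := i
    unfold T3_gL'
    have e : ∀ x : Lab, PresentedGroup.toGroup hf (el k L' x) = FreeGroup.lift (T3_fL' k hk) x :=
      fun x => rfl
    rcases i with _ | _ | i
    · rw [if_pos rfl, e]
      simp only [top, FreeGroup.lift_apply_of, T3_fL']
    · rw [if_neg (by simp), if_pos rfl, e]
      simp only [left, FreeGroup.lift_apply_of, T3_fL']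
    · rw [if_neg (by simp), if_neg (by simp), e]
      simp only [top, FreeGroup.lift_apply_of, T3_fL']
      rw [dif_pos hi]
  · intro x
    set A := el k L' (top 0) with hA
    set S := el k L' (top 1) with hS
    set B := el k L' (left 0) with hB
    have hg0 : T3_gL' k L' ⟨0, by omega⟩ = S := by
      unfold T3_gL'; rw [if_pos rfl]
    have hg1 : T3_gL' k L' ⟨1, by omega⟩ = B := by
      unfold T3_gL'; rw [if_neg (by simp), if_pos rfl]
    rcases x with (_ | _ | j) | (_ | c)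
    · simp only [T3_fL', map_mul, map_inv, FreeGroup.lift_apply_of, hg0, hg1]
      change _ = A
      have h3 := eq_inv_of_mul_eq_one_left hrel
      have h4 := eq_inv_mul_of_mul_eq h3
      rw [h4]
    · simp only [T3_fL', FreeGroup.lift_apply_of, hg0]
      rfl
    · simp only [T3_fL']
      split_ifs with h
      · rw [FreeGroup.lift_apply_of]
        unfold T3_gL'
        rw [if_neg (by simp), if_neg (by simp)]
        rfl
      · rw [map_one]
        exact (T3_top (by omega)).symm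
    · simp only [T3_fL', FreeGroup.lift_apply_of, hg1]
      rfl
    · simp only [T3_fL', map_one]
      exact (T3_left (by rw [hmax]; omega)).symm

theorem free : StmtFree := fun k hk => ⟨T3_freeL k hk, T3_freeL' k hk⟩

end Pool.Agent.H838R2.SL
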