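import Pool.Agent.H838R2.SL.Stubs

/-!
# T4: the longitudes of `J₀` and `J₁` are trivial modulo the lower central series
-/

set_option autoImplicit false

namespace Pool.Agent.H838R2.SL

open Pool.Agent.H835R2.Knot (Piece Word Front Fits run comps Move crossingSet switchAt up dn sw)
open Pool.Agent.H835R2.Knot.Piece

set_option linter.unusedSimpArgs false in
theorem t4_planar0 (k : ℕ) : planar k J₀ 0
    = (left 0)⁻¹ * top 0 * left 0 * top 0 * (left 0)⁻¹ := by
  simp [planar, J₀, par, parP, lab, exitP, Piece.act, start, Front.out, Front.inn, up, dn, sw,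
    mul_assoc, maxP]

set_option linter.unusedSimpArgs false in
theorem t4_planar1 (k : ℕ) : planar k J₁ 0
    = top 0 := by
  simp [planar, J₁, par, parP, lab, exitP, Piece.act, start, Front.out, Front.inn, up, dn, sw,
    mul_assoc, maxP]

set_option linter.unusedSimpArgs false in
theorem t4_planar0' (k j : ℕ) (hj : 1 ≤ j) : planar k J₀ j = 1 := by
  obtain ⟨j, rfl⟩ : ∃ j', j = j' + 1 := ⟨j - 1, by omega⟩
  simp [planar, J₀, par, parP, lab, exitP, Piece.act, start, Front.out, Front.inn, up, dn, sw,
    mul_assoc, maxP]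

set_option linter.unusedSimpArgs false in
theorem t4_planar1' (k j : ℕ) (hj : 1 ≤ j) : planar k J₁ j = 1 := by
  obtain ⟨j, rfl⟩ : ∃ j', j = j' + 1 := ⟨j - 1, by omega⟩
  simp [planar, J₁, par, parP, lab, exitP, Piece.act, start, Front.out, Front.inn, up, dn, sw,
    mul_assoc, maxP]

set_option linter.unusedSimpArgs false in
theorem t4_rels0 : rels J₀ 0 top
    = {top 0 * left 0 * (top 0)⁻¹ * (left 0 * top 0 * (left 0)⁻¹)} := by
  simp [rels, J₀, rel, lab, maxP, mul_assoc]

set_option linter.unusedSimpArgs false in
theorem t4_rels1 : rels J₁ 0 top = {left 0 * top 0} := by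
  simp [rels, J₁, rel, lab, maxP, mul_assoc]

open scoped commutatorElement in
/-- the relation of the trefoil makes `a` and `b⁻¹` equal modulo the lower central series -/
theorem t4_core {G : Type} [Group G] (a b : G)
    (h : a * b * a⁻¹ * (b * a * b⁻¹) = 1) (n : ℕ) :
    a * b ∈ (⊤ : Subgroup G).lowerCentralSeries n := by
  induction n with
  | zero => exact Subgroup.mem_top _
  | succ n ih =>
    have h1 : ⁅a * b, a⁆ ∈ (⊤ : Subgroup G).lowerCentralSeries (n + 1) :=
      Subgroup.commutator_mem_commutator ih (Subgroup.mem_top a)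
    rw [commutatorElement_def] at h1
    have key : ∀ {Q : Type} [Group Q] (g : G →* Q),
        g (a * b * a * (a * b)⁻¹ * a⁻¹) = 1 → g (a * b) = 1 := by
      intro Q _ g hg
      have h2 := congrArg g h
      simp only [map_mul, map_inv, map_one] at hg h2 ⊢
      generalize g a = A at hg h2 ⊢
      generalize g b = B at hg h2 ⊢
      have h3 : B * A = A * B := by
        have h4 : A * B * A = A * (A * B) := by
          rw [mul_inv_eq_one, mul_inv_eq_iff_eq_mul] at hg
          exact hg
        rw [mul_assoc] at h4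
        exact mul_left_cancel h4
      have h5 : B * A * B⁻¹ = A := by
        rw [h3, mul_inv_cancel_right]
      rw [h5, inv_mul_cancel_right] at h2
      exact h2
    rw [← QuotientGroup.eq_one_iff] at h1 ⊢
    exact key (QuotientGroup.mk' _) h1

/-- the group theoretic part -/
theorem t4_main (k : ℕ) (D : Word) (hmax : maxs D = 1) (R : Lab)
    (hR : rels D 0 top = {R})
    (hab : ∀ f : Lab →* Multiplicative ℤ, f R = f (top 0) * f (left 0))
    (hlcs : ∀ n, el k D (top 0 * left 0) ∈ (⊤ : Subgroup (Gp k D)).lowerCentralSeries n)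
    (e : ℤ)
    (hP0 : ∀ (H : Type) [Group H] (f : Lab →* H), f (top 0) * f (left 0) = 1 →
      f (planar k D 0) = f (top 0) ^ e)
    (hPj : ∀ j, 1 ≤ j → planar k D j = 1) (j : ℕ) (hj : j < k) :
    (∃ l, IsLongitude k D j l) ∧ ∀ l, IsLongitude k D j l →
      ∀ n, l ∈ (⊤ : Subgroup (Gp k D)).lowerCentralSeries n := by
  -- the product of the values of `a` and `b` under homomorphisms to an abelian group
  have hf : ∀ f : Gp k D →* Multiplicative ℤ, f (el k D (top 0)) * f (el k D (left 0)) = 1 := by
    intro f
    have h1 := hab (f.comp (PresentedGroup.mk _))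
    have h2 : (PresentedGroup.mk (rels D 0 top ∪ {g | ∃ j, k ≤ j ∧ g = top j} ∪
        {g | ∃ c, maxs D ≤ c ∧ g = left c}) R : Gp k D) = 1 := by
      apply PresentedGroup.one_of_mem
      left; left
      rw [hR]
      rfl
    have h3 : f (PresentedGroup.mk _ R) = 1 := by
      rw [h2, map_one]
    exact h1.symm.trans h3
  -- a homomorphism with prescribed values
  have hex : ∃ f : Gp k D →* Multiplicative ℤ,
      ∀ i < k, f (el k D (top i)) = if i = j then Multiplicative.ofAdd 1 else 1 := by
    let f0 : ℕ ⊕ ℕ → Multiplicative ℤ := Sum.elim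
      (fun i => if i = j then Multiplicative.ofAdd 1 else 1)
      (fun c => if c = 0 ∧ j = 0 then (Multiplicative.ofAdd 1)⁻¹ else 1)
    have htop : ∀ i, FreeGroup.lift f0 (top i) = if i = j then Multiplicative.ofAdd 1 else 1 := by
      intro i
      simp [top, f0]
    have hleft : ∀ c, FreeGroup.lift f0 (left c)
        = if c = 0 ∧ j = 0 then (Multiplicative.ofAdd 1)⁻¹ else 1 := by
      intro c
      simp [left, f0]
    refine ⟨PresentedGroup.toGroup (f := f0) ?_, ?_⟩
    · intro r hr
      rcases hr with (hr | ⟨i, hi, rfl⟩) | ⟨c, hc, rfl⟩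
      · rw [hR] at hr
        rw [Set.mem_singleton_iff.mp hr, hab, htop, hleft]
        rcases Nat.eq_zero_or_pos j with h0 | h0
        · subst h0
          simp
        · rw [if_neg (by omega), if_neg (by omega)]
          simp
      · rw [htop, if_neg (by omega)]
      · rw [hleft, if_neg (by omega)]
    · intro i _
      exact htop i
  have hfmk : ∀ (f : Gp k D →* Multiplicative ℤ) (g : Lab), f (el k D g)
      = (f.comp (PresentedGroup.mk _)) g := fun f g => rfl
  rcases Nat.eq_zero_or_pos j with h0 | h0
  · subst h0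
    have hval : ∀ (f : Gp k D →* Multiplicative ℤ) (x : ℤ),
        f (el k D (top 0)) = Multiplicative.ofAdd 1 →
        f (el k D (top 0 ^ x * planar k D 0)) = Multiplicative.ofAdd (x + e) := by
      intro f x h1
      have h2 := hP0 _ (f.comp (PresentedGroup.mk _)) (hf f)
      rw [hfmk, map_mul, map_zpow, h2]
      rw [← hfmk, h1, ← zpow_add, ← ofAdd_zsmul]
      simp
    refine ⟨⟨el k D (top 0 ^ (-e) * planar k D 0), ⟨-e, rfl⟩, ?_⟩, ?_⟩
    · intro f h1
      have h2 := h1 0 hj
      rw [if_pos rfl] at h2
      rw [hval f _ h2]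
      simp
    · rintro l ⟨⟨x, rfl⟩, hl⟩ n
      obtain ⟨f, h1⟩ := hex
      have h2 := h1 0 hj
      rw [if_pos rfl] at h2
      have h3 := hl f h1
      rw [hval f _ h2] at h3
      have h4 : x + e = 0 := by
        have := congrArg Multiplicative.toAdd h3
        simpa using this
      rw [← QuotientGroup.eq_one_iff]
      have h5 := (QuotientGroup.eq_one_iff (N := (⊤ : Subgroup (Gp k D)).lowerCentralSeries n)
        (el k D (top 0 * left 0))).mpr (hlcs n)
      let g : Lab →* Gp k D ⧸ (⊤ : Subgroup (Gp k D)).lowerCentralSeries n :=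
        (QuotientGroup.mk' _).comp (PresentedGroup.mk _)
      have h6 : g (top 0) * g (left 0) = 1 := by
        rw [← map_mul]
        exact h5
      have h7 := hP0 _ g h6
      have h8 : g (top 0 ^ x * planar k D 0) = 1 := by
        rw [map_mul, map_zpow, h7, ← zpow_add, h4, zpow_zero]
      exact h8
  · have hP := hPj j h0
    have hval : ∀ (f : Gp k D →* Multiplicative ℤ) (x : ℤ),
        f (el k D (top j)) = Multiplicative.ofAdd 1 →
        f (el k D (top j ^ x * planar k D j)) = Multiplicative.ofAdd x := by
      intro f x h1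
      rw [hfmk, map_mul, map_zpow, hP, map_one, mul_one]
      rw [← hfmk, h1, ← ofAdd_zsmul]
      simp
    refine ⟨⟨el k D (top j ^ (0 : ℤ) * planar k D j), ⟨0, rfl⟩, ?_⟩, ?_⟩
    · intro f h1
      have h2 := h1 j hj
      rw [if_pos rfl] at h2
      rw [hval f _ h2]
      simp
    · rintro l ⟨⟨x, rfl⟩, hl⟩ n
      obtain ⟨f, h1⟩ := hex
      have h2 := h1 j hj
      rw [if_pos rfl] at h2
      have h3 := hl f h1
      rw [hval f _ h2] at h3
      have h4 : x = 0 := by
        have := congrArg Multiplicative.toAdd h3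
        simpa using this
      rw [h4, hP]
      have h5 : el k D (top j ^ (0 : ℤ) * 1) = 1 := by
        simp [el]
      rw [h5]
      exact Subgroup.one_mem _

theorem long : StmtLong := by
  intro k hk D hD j hj
  rcases hD with rfl | rfl
  · apply t4_main k J₀ rfl _ t4_rels0 _ _ 3 _ (fun j hj => t4_planar0' k j hj) j hj
    · intro f
      simp only [map_mul, map_inv]
      generalize f (top 0) = x
      generalize f (left 0) = y
      have e1 : y * x * y⁻¹ = x := by rw [mul_comm y x, mul_inv_cancel_right]
      rw [e1, inv_mul_cancel_right]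
    · intro n
      have := t4_core (el k J₀ (top 0)) (el k J₀ (left 0)) (by
        have h2 : (PresentedGroup.mk (rels J₀ 0 top ∪ {g | ∃ j, k ≤ j ∧ g = top j} ∪
          {g | ∃ c, maxs J₀ ≤ c ∧ g = left c})
            (top 0 * left 0 * (top 0)⁻¹ * (left 0 * top 0 * (left 0)⁻¹)) : Gp k J₀) = 1 := by
          apply PresentedGroup.one_of_mem
          left; left
          rw [t4_rels0]
          rfl
        simpa [el] using h2) n
      simpa [el] using this
    · intro H _ f h
      have hb : f (left 0) = (f (top 0))⁻¹ := eq_inv_of_mul_eq_one_right h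
      rw [t4_planar0]
      simp only [map_mul, map_inv, hb, inv_inv, mul_inv_cancel_right]
      rw [show (3 : ℤ) = 1 + 1 + 1 by norm_num, zpow_add, zpow_add, zpow_one]
  · apply t4_main k J₁ rfl _ t4_rels1 _ _ 1 _ (fun j hj => t4_planar1' k j hj) j hj
    · intro f
      rw [map_mul, mul_comm]
    · intro n
      have h2 : (PresentedGroup.mk (rels J₁ 0 top ∪ {g | ∃ j, k ≤ j ∧ g = top j} ∪
          {g | ∃ c, maxs J₁ ≤ c ∧ g = left c}) (left 0 * top 0) : Gp k J₁) = 1 := by
        apply PresentedGroup.one_of_mem
        left; left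
        rw [t4_rels1]
        rfl
      have h3 : el k J₁ (top 0 * left 0) = 1 := by
        have h4 : el k J₁ (left 0) * el k J₁ (top 0) = 1 := by
          simpa [el] using h2
        have h5 : el k J₁ (top 0) * el k J₁ (left 0) = 1 := mul_eq_one_comm.mp h4
        simpa [el] using h5
      rw [h3]
      exact Subgroup.one_mem _
    · intro H _ f h
      rw [t4_planar1, zpow_one]

end Pool.Agent.H838R2.SL
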