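import Pool.Agent.H838R2.SL.Stubs
import Pool.Agent.H838R2.SL.T1

/-!
# The relation between the values of an invariant of order at most two
-/

set_option autoImplicit false

namespace Pool.Agent.H838R2.SL

open Pool.Agent.H835R2.Knot (Piece Word Front Fits run comps Move crossingSet switchAt up dn sw)
open Pool.Agent.H835R2.Knot.Piece

namespace RelT5

theorem ev_move {k : ℕ} (v : StringLink k → ℚ) (x l r y : Word) (hm : Move l r)
    (h : IsStringLink k (x ++ l ++ y)) (h' : IsStringLink k (x ++ r ++ y)) :
    ev v (x ++ l ++ y) = ev v (x ++ r ++ y) := by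
  rw [ev_mk v h, ev_mk v h']
  congr 1
  exact Quot.sound (Step.mk x l r y hm h h')

theorem sl {k : ℕ} (hk : 2 ≤ k) (D : Word) (h1 : Fits D (start 2)) (h2 : comps D (start 2) = 0)
    (h3 : (run D (start 2)).n = 2) (h4 : ∀ j < 2, exits D (start 2) (fun j => j) j = j) :
    IsStringLink k D := widen 2 k D ⟨h1, h2, h3, h4⟩ hk

end RelT5

open RelT5 in
theorem relation : StmtRel := by
  intro k hk v hv
  have hL : IsStringLink k L := sl hk _ (by decide) (by decide) (by decide) (by decide)
  have hS : ({3, 5, 6} : Finset ℕ) ⊆ crossingSet L := by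
    intro x hx
    simp only [Finset.mem_insert, Finset.mem_singleton] at hx
    rcases hx with rfl | rfl | rfl <;> decide
  have h0 := hv L hL {3, 5, 6} hS (by decide)
  have hps : ({3, 5, 6} : Finset ℕ).powerset =
      {∅, {3}, {5}, {6}, {3, 5}, {3, 6}, {5, 6}, {3, 5, 6}} := by decide
  rw [hps] at h0
  rw [Finset.sum_insert (by decide), Finset.sum_insert (by decide), Finset.sum_insert (by decide),
    Finset.sum_insert (by decide), Finset.sum_insert (by decide), Finset.sum_insert (by decide),
    Finset.sum_insert (by decide), Finset.sum_singleton] at h0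
  have e0 : switchAt ∅ L = L := by decide
  have e5 : switchAt {5} L = L' := by decide
  have e3 : switchAt {3} L =
      [birth 1 false, neg 2] ++ [neg 1, pos 1] ++ [pos 2, neg 0, pos 1, pos 1, death 0] := by decide
  have e35 : switchAt {3, 5} L =
      [birth 1 false, neg 2] ++ [neg 1, pos 1] ++ [pos 2, pos 0, pos 1, pos 1, death 0] := by decide
  have e6 : switchAt {6} L =
      [birth 1 false, neg 2, neg 1, neg 1, pos 2, neg 0] ++ [neg 1, pos 1] ++ [death 0] := by decide
  have e56 : switchAt {5, 6} L =
      [birth 1 false, neg 2, neg 1, neg 1, pos 2, pos 0] ++ [neg 1, pos 1] ++ [death 0] := by decide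
  have e36 : switchAt {3, 6} L =
      [birth 1 false, neg 2, neg 1, pos 1, pos 2, neg 0] ++ [neg 1, pos 1] ++ [death 0] := by decide
  have e356 : switchAt {3, 5, 6} L =
      [birth 1 false, neg 2, neg 1, pos 1, pos 2, pos 0] ++ [neg 1, pos 1] ++ [death 0] := by decide
  have f3 : ev v (switchAt {3} L) = ev v J₀ := by
    rw [e3, ev_move v _ _ _ _ (Move.second₂ 1)
      (sl hk _ (by decide) (by decide) (by decide) (by decide))
      (sl hk _ (by decide) (by decide) (by decide) (by decide))]
    exact ev_move v [birth 1 false] [neg 2, pos 2] [] [neg 0, pos 1, pos 1, death 0]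
      (Move.second₂ 2) (sl hk _ (by decide) (by decide) (by decide) (by decide))
      (sl hk _ (by decide) (by decide) (by decide) (by decide))
  have f35 : ev v (switchAt {3, 5} L) = ev v J₁ := by
    rw [e35, ev_move v _ _ _ _ (Move.second₂ 1)
      (sl hk _ (by decide) (by decide) (by decide) (by decide))
      (sl hk _ (by decide) (by decide) (by decide) (by decide))]
    exact ev_move v [birth 1 false] [neg 2, pos 2] [] [pos 0, pos 1, pos 1, death 0]
      (Move.second₂ 2) (sl hk _ (by decide) (by decide) (by decide) (by decide))
      (sl hk _ (by decide) (by decide) (by decide) (by decide))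
  have f6 : ev v (switchAt {6} L) =
      ev v ([birth 1 false, neg 2, neg 1, neg 1, pos 2] ++ [death 0] ++ []) := by
    rw [e6, ev_move v _ _ _ _ (Move.second₂ 1)
      (sl hk _ (by decide) (by decide) (by decide) (by decide))
      (sl hk _ (by decide) (by decide) (by decide) (by decide))]
    exact ev_move v [birth 1 false, neg 2, neg 1, neg 1, pos 2] [neg 0, death 0] [death 0] []
      (Move.firstDeathNeg 0) (sl hk _ (by decide) (by decide) (by decide) (by decide))
      (sl hk _ (by decide) (by decide) (by decide) (by decide))
  have f56 : ev v (switchAt {5, 6} L) =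
      ev v ([birth 1 false, neg 2, neg 1, neg 1, pos 2] ++ [death 0] ++ []) := by
    rw [e56, ev_move v _ _ _ _ (Move.second₂ 1)
      (sl hk _ (by decide) (by decide) (by decide) (by decide))
      (sl hk _ (by decide) (by decide) (by decide) (by decide))]
    exact ev_move v [birth 1 false, neg 2, neg 1, neg 1, pos 2] [pos 0, death 0] [death 0] []
      (Move.firstDeathPos 0) (sl hk _ (by decide) (by decide) (by decide) (by decide))
      (sl hk _ (by decide) (by decide) (by decide) (by decide))
  have f36 : ev v (switchAt {3, 6} L) =
      ev v ([birth 1 false, neg 2, neg 1, pos 1, pos 2] ++ [death 0] ++ []) := by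
    rw [e36, ev_move v _ _ _ _ (Move.second₂ 1)
      (sl hk _ (by decide) (by decide) (by decide) (by decide))
      (sl hk _ (by decide) (by decide) (by decide) (by decide))]
    exact ev_move v [birth 1 false, neg 2, neg 1, pos 1, pos 2] [neg 0, death 0] [death 0] []
      (Move.firstDeathNeg 0) (sl hk _ (by decide) (by decide) (by decide) (by decide))
      (sl hk _ (by decide) (by decide) (by decide) (by decide))
  have f356 : ev v (switchAt {3, 5, 6} L) =
      ev v ([birth 1 false, neg 2, neg 1, pos 1, pos 2] ++ [death 0] ++ []) := by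
    rw [e356, ev_move v _ _ _ _ (Move.second₂ 1)
      (sl hk _ (by decide) (by decide) (by decide) (by decide))
      (sl hk _ (by decide) (by decide) (by decide) (by decide))]
    exact ev_move v [birth 1 false, neg 2, neg 1, pos 1, pos 2] [pos 0, death 0] [death 0] []
      (Move.firstDeathPos 0) (sl hk _ (by decide) (by decide) (by decide) (by decide))
      (sl hk _ (by decide) (by decide) (by decide) (by decide))
  rw [f3, f35, f6, f56, f36, f356, e0, e5] at h0
  have c0 : (∅ : Finset ℕ).card = 0 := by decide
  have c3 : ({3} : Finset ℕ).card = 1 := by decide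
  have c5 : ({5} : Finset ℕ).card = 1 := by decide
  have c6 : ({6} : Finset ℕ).card = 1 := by decide
  have c35 : ({3, 5} : Finset ℕ).card = 2 := by decide
  have c36 : ({3, 6} : Finset ℕ).card = 2 := by decide
  have c56 : ({5, 6} : Finset ℕ).card = 2 := by decide
  have c356 : ({3, 5, 6} : Finset ℕ).card = 3 := by decide
  rw [c0, c3, c5, c6, c35, c36, c56, c356] at h0
  linear_combination h0

end Pool.Agent.H838R2.SL
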