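import Pool.Agent.H838R2.SL.Stubs

/-!
# The state model of sliced diagrams and its invariance under the moves
-/

set_option autoImplicit false
set_option linter.unreachableTactic false
set_option linter.unusedTactic false

namespace Pool.Agent.H838R2.SL

open Pool.Agent.H835R2.Knot (Piece Word Front Fits run comps Move crossingSet switchAt up dn sw)
open Pool.Agent.H838R2.Jones
open Pool.Agent.Helper454.Wh (insD delD swpD noD OPiece OWord)
open Pool.Agent.Helper454.Wh (insD_left insD_right insD_lt insD_gt delD_lt delD_ge swpD_left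
  swpD_right swpD_lt swpD_gt)

/-- the same piece, in the other language -/
def toO : Piece → OPiece
  | .birth i b => .birth i b
  | .death i => .death i
  | .pos i => .pos i
  | .neg i => .neg i

section
variable {R : Type} [CommRing R]

/-- the operator of a diagram -/
def opD (s s' : R) (D : Word) (d : ℕ → Bool) : Jones.F R →ₗ[R] Jones.F R := opW s s' (D.map toO) d

theorem dir_act (p : Piece) (A : Front) : (p.act A).dir = nxt (toO p) A.dir := by
  cases p with
  | birth i b => rfl
  | death i =>
    funext q
    simp only [Piece.act, toO, nxt, delD, up]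
    split_ifs <;> rfl
  | pos i =>
    funext q
    simp only [Piece.act, toO, nxt, swpD, sw]
    split_ifs <;> rfl
  | neg i =>
    funext q
    simp only [Piece.act, toO, nxt, swpD, sw]
    split_ifs <;> rfl

theorem dir_run (D : Word) (A : Front) : (run D A).dir = dirW (D.map toO) A.dir := by
  induction D generalizing A with
  | nil => rfl
  | cons p w ih =>
    show (run w (p.act A)).dir = dirW (w.map toO) (nxt (toO p) A.dir)
    rw [ih, dir_act]

theorem opD_append (s s' : R) (u w : Word) (A : Front) (f : Jones.F R) :
    opD s s' (u ++ w) A.dir f = opD s s' u A.dir (opD s s' w (run u A).dir f) := by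
  rw [opD, List.map_append, opW_append, dir_run]; rfl

theorem opD_cons (s s' : R) (p : Piece) (w : Word) (A : Front) (f : Jones.F R) :
    opD s s' (p :: w) A.dir f = opP s s' (toO p) A.dir (opD s s' w (p.act A).dir f) := by
  rw [dir_act]; rfl

/-! ### the moves -/

section
variable {s s' : R} (hs : s * s' = 1)
include hs

/-- both sides of a move have the same operator and the same directions below -/
theorem move_op {l r : Word} (h : Move l r) (A : Front) (hl : Fits l A) (f : Jones.F R) :
    opD s s' l A.dir f = opD s s' r A.dir f ∧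
      dirW (l.map toO) A.dir = dirW (r.map toO) A.dir := by
  set d := A.dir with hd
  cases h with
  | exchange p q h =>
    cases p with
    | birth i b =>
      cases q with
      | birth j b' =>
        have h : i ≤ j := h
        refine ⟨?_, ?_⟩
        · exact BB s' h f
        · show insD (j + 2) b' (insD i b d) = insD i b (insD j b' d)
          exact Helper454.Wh.ins_ins d b b' h
      | death j =>
        have h : i ≤ j := h
        refine ⟨?_, ?_⟩
        · exact BD s s' h f
        · exact Helper454.Wh.del_ins_right d b h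
      | pos j =>
        have h : i ≤ j := h
        refine ⟨?_, ?_⟩
        · show Bl s' i (Xl s s' (cP s s' (insD i b d (j + 2) == insD i b d (j + 2 + 1))) (j + 2) f) =
            Xl s s' (cP s s' (d j == d (j + 1))) j (Bl s' i f)
          rw [insD_gt b d h, show j + 2 + 1 = (j + 1) + 2 by omega, insD_gt b d (by omega),
            BX s s' _ h]
        · exact Helper454.Wh.swp_ins_right d b h
      | neg j =>
        have h : i ≤ j := h
        refine ⟨?_, ?_⟩
        · show Bl s' i (Xl s s' (cN s s' (insD i b d (j + 2) == insD i b d (j + 2 + 1))) (j + 2) f) =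
            Xl s s' (cN s s' (d j == d (j + 1))) j (Bl s' i f)
          rw [insD_gt b d h, show j + 2 + 1 = (j + 1) + 2 by omega, insD_gt b d (by omega),
            BX s s' _ h]
        · exact Helper454.Wh.swp_ins_right d b h
    | death i =>
      cases q with
      | birth j b' =>
        have h : i + 2 ≤ j := h
        obtain ⟨m, rfl⟩ : ∃ m, j = m + 2 := ⟨j - 2, by omega⟩
        refine ⟨?_, ?_⟩
        · exact DB s s' (show i ≤ m by omega) f
        · exact (Helper454.Wh.del_ins_left d b' (show i ≤ m by omega)).symm
      | death j =>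
        have h : i + 2 ≤ j := h
        obtain ⟨m, rfl⟩ : ∃ m, j = m + 2 := ⟨j - 2, by omega⟩
        refine ⟨?_, ?_⟩
        · exact DD s (show i ≤ m by omega) f
        · exact del_del d (show i ≤ m by omega)
      | pos j =>
        have h : i + 2 ≤ j := h
        obtain ⟨m, rfl⟩ : ∃ m, j = m + 2 := ⟨j - 2, by omega⟩
        refine ⟨?_, ?_⟩
        · show Dl s i (Xl s s' (cP s s' (delD i d m == delD i d (m + 1))) m f) =
            Xl s s' (cP s s' (d (m + 2) == d (m + 2 + 1))) (m + 2) (Dl s i f)
          rw [delD_ge d (show i ≤ m by omega), delD_ge d (show i ≤ m + 1 by omega),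
            DX s s' _ (show i ≤ m by omega)]
        · exact (Helper454.Wh.del_swp_left d (show i ≤ m by omega)).symm
      | neg j =>
        have h : i + 2 ≤ j := h
        obtain ⟨m, rfl⟩ : ∃ m, j = m + 2 := ⟨j - 2, by omega⟩
        refine ⟨?_, ?_⟩
        · show Dl s i (Xl s s' (cN s s' (delD i d m == delD i d (m + 1))) m f) =
            Xl s s' (cN s s' (d (m + 2) == d (m + 2 + 1))) (m + 2) (Dl s i f)
          rw [delD_ge d (show i ≤ m by omega), delD_ge d (show i ≤ m + 1 by omega),
            DX s s' _ (show i ≤ m by omega)]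
        · exact (Helper454.Wh.del_swp_left d (show i ≤ m by omega)).symm
    | pos i =>
      cases q with
      | birth j b' =>
        have h : i + 2 ≤ j := h
        refine ⟨?_, ?_⟩
        · show Xl s s' (cP s s' (d i == d (i + 1))) i (Bl s' j f) =
            Bl s' j (Xl s s' (cP s s' (insD j b' d i == insD j b' d (i + 1))) i f)
          rw [insD_lt b' d (by omega), insD_lt b' d (by omega), XB s s' _ h]
        · exact (Helper454.Wh.swp_ins_left d b' h).symm
      | death j =>
        have h : i + 2 ≤ j := h
        refine ⟨?_, ?_⟩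
        · show Xl s s' (cP s s' (d i == d (i + 1))) i (Dl s j f) =
            Dl s j (Xl s s' (cP s s' (delD j d i == delD j d (i + 1))) i f)
          rw [delD_lt d (by omega), delD_lt d (by omega), XD s s' _ h]
        · exact Helper454.Wh.del_swp_right d h
      | pos j =>
        have h : i + 2 ≤ j := h
        refine ⟨?_, ?_⟩
        · show Xl s s' (cP s s' (d i == d (i + 1))) i
              (Xl s s' (cP s s' (swpD i d j == swpD i d (j + 1))) j f) =
            Xl s s' (cP s s' (d j == d (j + 1))) j
              (Xl s s' (cP s s' (swpD j d i == swpD j d (i + 1))) i f)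
          rw [swpD_gt d h, swpD_gt d (show i + 2 ≤ j + 1 by omega), swpD_lt d (by omega),
            swpD_lt d (by omega), XX s s' _ _ h]
        · exact Helper454.Wh.swp_swp_far d h
      | neg j =>
        have h : i + 2 ≤ j := h
        refine ⟨?_, ?_⟩
        · show Xl s s' (cP s s' (d i == d (i + 1))) i
              (Xl s s' (cN s s' (swpD i d j == swpD i d (j + 1))) j f) =
            Xl s s' (cN s s' (d j == d (j + 1))) j
              (Xl s s' (cP s s' (swpD j d i == swpD j d (i + 1))) i f)
          rw [swpD_gt d h, swpD_gt d (show i + 2 ≤ j + 1 by omega), swpD_lt d (by omega),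
            swpD_lt d (by omega), XX s s' _ _ h]
        · exact Helper454.Wh.swp_swp_far d h
    | neg i =>
      cases q with
      | birth j b' =>
        have h : i + 2 ≤ j := h
        refine ⟨?_, ?_⟩
        · show Xl s s' (cN s s' (d i == d (i + 1))) i (Bl s' j f) =
            Bl s' j (Xl s s' (cN s s' (insD j b' d i == insD j b' d (i + 1))) i f)
          rw [insD_lt b' d (by omega), insD_lt b' d (by omega), XB s s' _ h]
        · exact (Helper454.Wh.swp_ins_left d b' h).symm
      | death j =>
        have h : i + 2 ≤ j := h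
        refine ⟨?_, ?_⟩
        · show Xl s s' (cN s s' (d i == d (i + 1))) i (Dl s j f) =
            Dl s j (Xl s s' (cN s s' (delD j d i == delD j d (i + 1))) i f)
          rw [delD_lt d (by omega), delD_lt d (by omega), XD s s' _ h]
        · exact Helper454.Wh.del_swp_right d h
      | pos j =>
        have h : i + 2 ≤ j := h
        refine ⟨?_, ?_⟩
        · show Xl s s' (cN s s' (d i == d (i + 1))) i
              (Xl s s' (cP s s' (swpD i d j == swpD i d (j + 1))) j f) =
            Xl s s' (cP s s' (d j == d (j + 1))) j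
              (Xl s s' (cN s s' (swpD j d i == swpD j d (i + 1))) i f)
          rw [swpD_gt d h, swpD_gt d (show i + 2 ≤ j + 1 by omega), swpD_lt d (by omega),
            swpD_lt d (by omega), XX s s' _ _ h]
        · exact Helper454.Wh.swp_swp_far d h
      | neg j =>
        have h : i + 2 ≤ j := h
        refine ⟨?_, ?_⟩
        · show Xl s s' (cN s s' (d i == d (i + 1))) i
              (Xl s s' (cN s s' (swpD i d j == swpD i d (j + 1))) j f) =
            Xl s s' (cN s s' (d j == d (j + 1))) j
              (Xl s s' (cN s s' (swpD j d i == swpD j d (i + 1))) i f)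
          rw [swpD_gt d h, swpD_gt d (show i + 2 ≤ j + 1 by omega), swpD_lt d (by omega),
            swpD_lt d (by omega), XX s s' _ _ h]
        · exact Helper454.Wh.swp_swp_far d h
  | zigzag₁ i b =>
    have hb : b = d i := by
      have h2 := hl.2.1.2
      rw [dir_act, ← hd] at h2
      have e1 : nxt (toO (.birth i b)) d (i + 1 + 1) = d i := insD_gt b d le_rfl
      have e2 : nxt (toO (.birth i b)) d (i + 1) = !b := insD_right i b d
      rw [e1, e2] at h2
      rw [h2]; simp
    refine ⟨zigA hs i f, ?_⟩
    show delD (i + 1) (insD i b d) = d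
    rw [hb]; exact Helper454.Wh.del_ins_zig1 d i
  | zigzag₂ i b =>
    have hb : b = !d i := by
      have h2 := hl.2.1.2
      rw [dir_act, ← hd] at h2
      have e1 : nxt (toO (.birth (i + 1) b)) d (i + 1) = b := insD_left (i + 1) b d
      have e2 : nxt (toO (.birth (i + 1) b)) d i = d i := insD_lt b d (by omega)
      rw [e1, e2] at h2
      exact h2
    refine ⟨zigB hs i f, ?_⟩
    show delD i (insD (i + 1) b d) = d
    rw [hb]; exact Helper454.Wh.del_ins_zig2 d i
  | slideBirth₁ i b =>
    refine ⟨?_, Helper454.Wh.swp_ins_slide d b i⟩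
    show Bl s' i (Xl s s' (cP s s' (insD i b d (i + 1) == insD i b d (i + 1 + 1))) (i + 1) f) =
      Bl s' (i + 1) (Xl s s' (cN s s' (insD (i + 1) b d i == insD (i + 1) b d (i + 1))) i f)
    rw [insD_right, insD_gt b d le_rfl, insD_lt b d (by omega), insD_left, slideB hs, cPN_flip]
    congr 3 <;> cases b <;> cases d i <;> rfl
  | slideBirth₂ i b =>
    refine ⟨?_, Helper454.Wh.swp_ins_slide d b i⟩
    show Bl s' i (Xl s s' (cN s s' (insD i b d (i + 1) == insD i b d (i + 1 + 1))) (i + 1) f) =
      Bl s' (i + 1) (Xl s s' (cP s s' (insD (i + 1) b d i == insD (i + 1) b d (i + 1))) i f)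
    rw [insD_right, insD_gt b d le_rfl, insD_lt b d (by omega), insD_left, slideB hs, cPN_flip]
    congr 3 <;> cases b <;> cases d i <;> rfl
  | slideDeath₁ i =>
    have hb : d (i + 2) = !d i := by
      have h2 := hl.2.1.2
      rw [dir_act, ← hd] at h2
      have e1 : nxt (toO (.pos (i + 1))) d (i + 1) = d (i + 2) := swpD_left (i + 1) d
      have e2 : nxt (toO (.pos (i + 1))) d i = d i := swpD_lt d (by omega)
      rw [e1, e2] at h2
      exact h2
    refine ⟨?_, Helper454.Wh.del_swp_slide d i⟩
    show Xl s s' (cP s s' (d (i + 1) == d (i + 2))) (i + 1) (Dl s i f) =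
      Xl s s' (cN s s' (d i == d (i + 1))) i (Dl s (i + 1) f)
    rw [slideDl hs, cPN_flip, hb]
    congr 3 <;> cases d i <;> cases d (i + 1) <;> rfl
  | slideDeath₂ i =>
    have hb : d (i + 2) = !d i := by
      have h2 := hl.2.1.2
      rw [dir_act, ← hd] at h2
      have e1 : nxt (toO (.neg (i + 1))) d (i + 1) = d (i + 2) := swpD_left (i + 1) d
      have e2 : nxt (toO (.neg (i + 1))) d i = d i := swpD_lt d (by omega)
      rw [e1, e2] at h2
      exact h2
    refine ⟨?_, Helper454.Wh.del_swp_slide d i⟩
    show Xl s s' (cN s s' (d (i + 1) == d (i + 2))) (i + 1) (Dl s i f) =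
      Xl s s' (cP s s' (d i == d (i + 1))) i (Dl s (i + 1) f)
    rw [slideDl hs, cPN_flip, hb]
    congr 3 <;> cases d i <;> cases d (i + 1) <;> rfl
  | firstBirthPos i b =>
    refine ⟨?_, Helper454.Wh.swp_ins_same d b i⟩
    show Bl s' i (Xl s s' (cP s s' (insD i b d i == insD i b d (i + 1))) i f) = Bl s' i f
    rw [insD_left, insD_right, show (b == !b) = false by cases b <;> rfl]
    exact curlB (curl_coef hs).1 i f
  | firstBirthNeg i b =>
    refine ⟨?_, Helper454.Wh.swp_ins_same d b i⟩
    show Bl s' i (Xl s s' (cN s s' (insD i b d i == insD i b d (i + 1))) i f) = Bl s' i f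
    rw [insD_left, insD_right, show (b == !b) = false by cases b <;> rfl]
    exact curlB (curl_coef hs).2 i f
  | firstDeathPos i =>
    have hb : (d i == d (i + 1)) = false := by
      have h2 := hl.2.1.2
      rw [dir_act, ← hd] at h2
      have e1 : nxt (toO (.pos i)) d (i + 1) = d i := swpD_right i d
      have e2 : nxt (toO (.pos i)) d i = d (i + 1) := swpD_left i d
      rw [e1, e2] at h2
      rw [h2]; cases d (i + 1) <;> rfl
    refine ⟨?_, Helper454.Wh.del_swp_same d i⟩
    show Xl s s' (cP s s' (d i == d (i + 1))) i (Dl s i f) = Dl s i f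
    rw [hb]
    exact curlD (curl_coef hs).1 i f
  | firstDeathNeg i =>
    have hb : (d i == d (i + 1)) = false := by
      have h2 := hl.2.1.2
      rw [dir_act, ← hd] at h2
      have e1 : nxt (toO (.neg i)) d (i + 1) = d i := swpD_right i d
      have e2 : nxt (toO (.neg i)) d i = d (i + 1) := swpD_left i d
      rw [e1, e2] at h2
      rw [h2]; cases d (i + 1) <;> rfl
    refine ⟨?_, Helper454.Wh.del_swp_same d i⟩
    show Xl s s' (cN s s' (d i == d (i + 1))) i (Dl s i f) = Dl s i f
    rw [hb]
    exact curlD (curl_coef hs).2 i f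
  | second₁ i =>
    refine ⟨?_, Helper454.Wh.swp_swp d i⟩
    show Xl s s' (cP s s' (d i == d (i + 1))) i
      (Xl s s' (cN s s' (swpD i d i == swpD i d (i + 1))) i f) = f
    rw [swpD_left, swpD_right, show (d (i + 1) == d i) = (d i == d (i + 1)) by
      cases d i <;> cases d (i + 1) <;> rfl]
    exact pos_neg hs _ i f
  | second₂ i =>
    refine ⟨?_, Helper454.Wh.swp_swp d i⟩
    show Xl s s' (cN s s' (d i == d (i + 1))) i
      (Xl s s' (cP s s' (swpD i d i == swpD i d (i + 1))) i f) = f
    rw [swpD_left, swpD_right, show (d (i + 1) == d i) = (d i == d (i + 1)) by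
      cases d i <;> cases d (i + 1) <;> rfl]
    exact neg_pos hs _ i f
  | third i =>
    refine ⟨?_, Helper454.Wh.swp_braid d i⟩
    show Xl s s' (cP s s' (d i == d (i + 1))) i
      (Xl s s' (cP s s' (swpD i d (i + 1) == swpD i d (i + 1 + 1))) (i + 1)
        (Xl s s' (cP s s' (swpD (i + 1) (swpD i d) i == swpD (i + 1) (swpD i d) (i + 1))) i f)) =
      Xl s s' (cP s s' (d (i + 1) == d (i + 1 + 1))) (i + 1)
      (Xl s s' (cP s s' (swpD (i + 1) d i == swpD (i + 1) d (i + 1))) i
        (Xl s s' (cP s s' (swpD i (swpD (i + 1) d) (i + 1) ==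
          swpD i (swpD (i + 1) d) (i + 1 + 1))) (i + 1) f))
    rw [swpD_right i d, swpD_gt d (show i + 2 ≤ i + 1 + 1 by omega),
      swpD_lt (swpD i d) (show i < i + 1 by omega), swpD_left i d,
      swpD_left (i + 1) (swpD i d), swpD_gt d (show i + 2 ≤ i + 1 + 1 by omega),
      swpD_lt d (show i < i + 1 by omega), swpD_left (i + 1) d,
      swpD_right i (swpD (i + 1) d), swpD_lt d (show i < i + 1 by omega),
      swpD_gt (swpD (i + 1) d) (show i + 2 ≤ i + 1 + 1 by omega), swpD_right (i + 1) d]
    exact third hs _ _ _ i f (third_coef hs (d i) (d (i + 1)) (d (i + 1 + 1)))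

end

end

end Pool.Agent.H838R2.SL
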