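import Pool.Agent.H838R2.SL.T8

/-!
# Higher coefficients of the Jones polynomial and full twists
-/

set_option autoImplicit false

namespace Pool.Agent.H838R2.SL

open Pool.Agent.H835R2.Knot (Piece Word Front Fits run comps Move crossingSet switchAt up dn sw)
open Pool.Agent.H835R2.Knot.Piece
open Pool.Agent.H838R2.Jones
open PowerSeries

noncomputable section

/-- the coefficient of `X ^ n` -/
def jn (k n : ℕ) : StringLink k → ℚ :=
  Quot.lift (fun D => coeff n (valD D.1)) (by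
    rintro ⟨D, hD⟩ ⟨E, hE⟩ h
    simp only at h ⊢
    cases h with
    | mk x l r y hm h1 h2 => rw [valD_move hm h1])

theorem jn_mem (k n : ℕ) : jn k n ∈ V k n := by
  intro D hD S hS hc
  have h1 : ∀ x ∈ S, 0 ≤ x ∧ x < 0 + D.length := by
    intro x hx
    have h2 := hS hx
    simp only [crossingSet, Finset.mem_filter, Finset.mem_range] at h2
    exact ⟨Nat.zero_le _, by omega⟩
  have h3 := Dv_sum D 0 S (fun _ => true) 1 h1 (fun _ => false)
  rw [hc] at h3
  have h4 : coeff n ((∑ T ∈ S.powerset, (-1 : ℚ⟦X⟧) ^ T.card •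
      opD sx sx' (sw' T 0 D) (fun _ => true) 1) (fun _ => false)) = 0 :=
    (X_pow_dvd_iff.1 h3) n (Nat.lt_succ_self n)
  rw [Finset.sum_apply, map_sum] at h4
  rw [← h4]
  refine Finset.sum_congr rfl fun T _ => ?_
  have hT := switch k D T hD
  rw [ev_mk _ hT]
  show (-1 : ℚ) ^ T.card * coeff n (valD (switchAt T D)) = _
  rw [switchAt_eq, Pi.smul_apply, smul_eq_mul]
  have : ((-1 : ℚ⟦X⟧) ^ T.card) = C ((-1 : ℚ) ^ T.card) := by simp
  rw [this, coeff_C_mul]
  rfl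

/-- the full twist multiplies the value by `s ^ 2` -/
theorem val_tw (i : ℕ) (d : ℕ → Bool) (hd : d 0 = true) (hd' : d 1 = true) :
    opD sx sx' (tw i) d 1 (fun _ => false) = sx ^ (2 * i) := by
  have key : ∀ (f : Jones.F ℚ⟦X⟧), Xl sx sx' (cP sx sx' true) 0 f (fun _ => false) =
      -sx * f (fun _ => false) := by
    intro f
    rw [Xl_apply]
    simp [Dl_apply, cP]
  induction i generalizing d with
  | zero => simp [tw, opD, opW]
  | succ i ih =>
    show Xl sx sx' (cP sx sx' (d 0 == d 1)) 0 (Xl sx sx' (cP sx sx'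
      (Helper454.Wh.swpD 0 d 0 == Helper454.Wh.swpD 0 d 1)) 0
        (opD sx sx' (tw i) (Helper454.Wh.swpD 0 (Helper454.Wh.swpD 0 d)) 1)) (fun _ => false) = _
    have e1 : Helper454.Wh.swpD 0 d 0 = d 1 := Helper454.Wh.swpD_left 0 d
    have e2 : Helper454.Wh.swpD 0 d 1 = d 0 := Helper454.Wh.swpD_right 0 d
    rw [e1, e2, hd, hd', Helper454.Wh.swp_swp, show (true == true) = true from rfl, key, key,
      ih d hd hd']
    ring

theorem val_J₀_tw (i : ℕ) : valD (J₀ ++ tw i) = (sx ^ 2 + sx ^ 6 - sx ^ 8) * sx ^ (2 * i) := by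
  show opD sx sx' (J₀ ++ tw i) (start 2).dir 1 (fun _ => false) = _
  rw [opD_append]
  show opD sx sx' J₀ (fun _ => true) _ (fun _ => false) = _
  rw [val_J₀ _ _ hsx, Pi.smul_apply, val_tw i _ (by decide) (by decide), smul_eq_mul]

theorem val_J₁_tw (i : ℕ) : valD (J₁ ++ tw i) = sx ^ (2 * i) := by
  show opD sx sx' (J₁ ++ tw i) (start 2).dir 1 (fun _ => false) = _
  rw [opD_append]
  show opD sx sx' J₁ (fun _ => true) _ (fun _ => false) = _
  rw [val_J₁ _ _ hsx, val_tw i _ (by decide) (by decide)]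

/-- iterated differences of the coefficients -/
theorem dlr_coeff {k : ℕ} (hk : 2 ≤ k) (n r : ℕ) {D : Word} (hD : IsStringLink k D) (a c : ℚ⟦X⟧)
    (v : StringLink k → ℚ) (h : ∀ i, ev v (D ++ tw i) = coeff n (c * a * sx ^ (2 * i))) :
    ev (dlr hk r v) D = coeff n (c * a * (sx ^ 2 - 1) ^ r) := by
  induction r generalizing v c with
  | zero => simpa [tw, dlr] using h 0
  | succ r ih =>
    have := ih (c * (sx ^ 2 - 1)) (dl hk v) (by
      intro i
      rw [dl_mk hk v (sl_tw hk i hD), append_tt_tw, h, h, ← map_sub]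
      congr 1
      ring)
    rw [dlr, this]
    congr 1
    ring

theorem jn_ne {k : ℕ} (hk : 2 ≤ k) (r : ℕ) :
    ev (dlr hk r (jn k (2 + r))) J₀ ≠ ev (dlr hk r (jn k (2 + r))) J₁ := by
  have c₀ : IsStringLink k J₀ := widen 2 k _ ⟨by decide, by decide, by decide, by decide⟩ hk
  have c₁ : IsStringLink k J₁ := widen 2 k _ ⟨by decide, by decide, by decide, by decide⟩ hk
  rw [dlr_coeff hk (2 + r) r c₀ (sx ^ 2 + sx ^ 6 - sx ^ 8) 1 (jn k (2 + r)) (fun i => by
      rw [ev_mk _ (sl_tw hk i c₀)]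
      show coeff _ (valD _) = _
      rw [val_J₀_tw, one_mul]),
    dlr_coeff hk (2 + r) r c₁ 1 1 (jn k (2 + r)) (fun i => by
      rw [ev_mk _ (sl_tw hk i c₁)]
      show coeff _ (valD _) = _
      rw [val_J₁_tw, one_mul, one_mul])]
  rw [Ne, ← sub_eq_zero, ← map_sub]
  have e : (1 * (sx ^ 2 + sx ^ 6 - sx ^ 8) * (sx ^ 2 - 1) ^ r - 1 * 1 * (sx ^ 2 - 1) ^ r : ℚ⟦X⟧) =
      X ^ (2 + r) * ((-12 - 36 * X - 55 * X ^ 2 - 50 * X ^ 3 - 27 * X ^ 4 - 8 * X ^ 5 - X ^ 6) *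
        (2 + X) ^ r) := by
    have h1 : (sx ^ 2 - 1 : ℚ⟦X⟧) = X * (2 + X) := by rw [sx]; ring
    have h2 : (sx ^ 2 + sx ^ 6 - sx ^ 8 - 1 : ℚ⟦X⟧) = X ^ 2 *
        (-12 - 36 * X - 55 * X ^ 2 - 50 * X ^ 3 - 27 * X ^ 4 - 8 * X ^ 5 - X ^ 6) := by
      rw [sx]; ring
    rw [h1, mul_pow, pow_add]
    linear_combination X ^ r * (2 + X) ^ r * h2
  rw [e, coeff_X_pow_mul', if_pos le_rfl, Nat.sub_self, coeff_zero_eq_constantCoeff]
  have h12 : constantCoeff (12 : ℚ⟦X⟧) = 12 := map_ofNat _ 12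
  have h2 : constantCoeff (2 : ℚ⟦X⟧) = 2 := map_ofNat _ 2
  simp [h12, h2]

end

end Pool.Agent.H838R2.SL
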